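import Mathlib

/-! Definitions: Birkhoff operators, pseudovarieties of groups, universal theories. -/

namespace Pool.Agent.H.MP_152bd8_lc

open Function

/-- A finite (nonempty) semigroup. -/
structure FinSg where
  carrier : Type
  [sg : Semigroup carrier]
  [fin : Finite carrier]
  [ne : Nonempty carrier]

attribute [instance] FinSg.sg FinSg.fin FinSg.ne

/-- Classes of finite semigroups. -/
abbrev Cl : Type 1 := FinSg → Prop

/-- Homomorphic images of members of `C`. -/
def H (C : Cl) : Cl := fun N => ∃ T, C T ∧ ∃ f : T.carrier →ₙ* N.carrier, Surjective f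

/-- Semigroups embeddable into members of `C`. -/
def S (C : Cl) : Cl := fun N => ∃ T, C T ∧ ∃ f : N.carrier →ₙ* T.carrier, Injective f

/-- Direct products of `n + 1 ≥ 1` members of `C`, up to isomorphism. -/
def P (C : Cl) : Cl := fun N => ∃ (n : ℕ) (T : Fin (n + 1) → FinSg), (∀ i, C (T i)) ∧
  Nonempty (N.carrier ≃* ∀ i, (T i).carrier)

/-- Direct products of `n ≥ 0` members of `C` (the convention allowing the empty product). -/
def P0 (C : Cl) : Cl := fun N => ∃ (n : ℕ) (T : Fin n → FinSg), (∀ i, C (T i)) ∧
  Nonempty (N.carrier ≃* ∀ i, (T i).carrier)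

/-- Names of the basic operators (both conventions for products are allowed). -/
inductive Op
  | h
  | s
  | p
  | p0
  deriving DecidableEq

/-- The Birkhoff operator given by a word in `H`, `S`, `P`, `P0` (acting from right to left). -/
def app : List Op → Cl → Cl
  | [], C => C
  | Op.h :: l, C => H (app l C)
  | Op.s :: l, C => S (app l C)
  | Op.p :: l, C => P (app l C)
  | Op.p0 :: l, C => P0 (app l C)

/-- The multiplication table of `M` for a numbering `e` of its elements. -/
def table (M : FinSg) {n : ℕ} (e : Fin n ≃ M.carrier) : List (List ℕ) :=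
  List.ofFn fun i => List.ofFn fun j => (e.symm (e i * e j) : ℕ)

/-- Some algorithm, given a multiplication table, decides membership in `C`. -/
def Decid (C : Cl) : Prop := ∃ f : List (List ℕ) → Bool, Computable f ∧
  ∀ (M : FinSg) (n : ℕ) (e : Fin n ≃ M.carrier), f (table M e) = true ↔ C M

/-- `C` is recursive (empty word) and so is its image under every Birkhoff operator. -/
def CompletelySolvable (C : Cl) : Prop := ∀ K : List Op, Decid (app K C)

/-- A finite group. -/
structure FinGp where
  carrier : Type
  [gp : Group carrier]
  [fin : Finite carrier]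

attribute [instance] FinGp.gp FinGp.fin

/-- Pseudovarieties of finite groups: closed under subgroups, homomorphic images and finite
direct products. -/
structure PsV (V : FinGp → Prop) : Prop where
  sub : ∀ (G K : FinGp) (f : K.carrier →* G.carrier), Injective f → V G → V K
  quo : ∀ (G K : FinGp) (f : G.carrier →* K.carrier), Surjective f → V G → V K
  prod : ∀ (n : ℕ) (G : Fin n → FinGp), (∀ i, V (G i)) → V ⟨∀ i, (G i).carrier⟩

/-- Group words: a letter `(n, true)` is the variable `n`, a letter `(n, false)` its inverse. -/
abbrev Word : Type := List (ℕ × Bool)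

/-- The value of a group word under an assignment of the variables. -/
def ev {G : Type} [Group G] (a : ℕ → G) (w : Word) : G :=
  (w.map fun l => if l.2 then a l.1 else (a l.1)⁻¹).prod

/-- A clause `(E, F)` stands for the universal closure of: the conjunction of the equations in `E`
implies the disjunction of the equations in `F`. -/
abbrev Clause : Type := List (Word × Word) × List (Word × Word)

/-- The clause is true in every group of `V`. -/
def Holds (V : FinGp → Prop) (c : Clause) : Prop := ∀ G, V G → ∀ a : ℕ → G.carrier,
  (∀ q ∈ c.1, ev a q.1 = ev a q.2) → ∃ q ∈ c.2, ev a q.1 = ev a q.2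

/-- The universal theory of `V` (in clausal form) is decidable. -/
def DecUniv (V : FinGp → Prop) : Prop :=
  ∃ f : Clause → Bool, Computable f ∧ ∀ c, f c = true ↔ Holds V c

/-- Two-sided ideals (nonempty). -/
def IsIdeal {T : Type} [Mul T] (I : Set T) : Prop :=
  I.Nonempty ∧ ∀ a ∈ I, ∀ b, a * b ∈ I ∧ b * a ∈ I

/-- The finite 0-simple semigroups: there is a zero `z`, some product is nonzero, and the only
ideals are `{z}` and the whole semigroup. -/
def C0 : Cl := fun T => ∃ z : T.carrier, (∀ a, z * a = z ∧ a * z = z) ∧ (∃ a b, a * b ≠ z) ∧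
  ∀ I : Set T.carrier, IsIdeal I → I = {z} ∨ I = Set.univ

/-- All subgroups of the semigroup `T` lie in `V`. -/
def Gp (V : FinGp → Prop) (T : Type) [Mul T] : Prop :=
  ∀ (G : FinGp) (j : G.carrier →ₙ* T), Injective j → V G

/-- The finite 0-simple semigroups over groups in `V`. -/
def ZV (V : FinGp → Prop) : Cl := fun T => C0 T ∧ Gp V T.carrier

end Pool.Agent.H.MP_152bd8_lc
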