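import Pool.Agent.H.MP_99598b_lc.C
import Pool.Agent.H.MP_152bd8_lc.Defs

/-! The key lemma: labels in a universal group of `V` determine bounded-state functions. -/

namespace Pool.Agent.H.MP_152bd8_lc

open Function Pool.Agent.H.MP_88bd66_lc Pool.Agent.H.MP_99598b_lc

export Pool.Agent.H.MP_99598b_lc (Path)

variable {V : FinGp → Prop}

theorem PsV.inj (hV : PsV V) {G K : Type} [Group G] [Finite G] [Group K] [Finite K] (f : K →* G)
    (hf : Injective f) (h : V ⟨G⟩) : V ⟨K⟩ := hV.sub ⟨G⟩ ⟨K⟩ f hf h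

theorem PsV.surj (hV : PsV V) {G K : Type} [Group G] [Finite G] [Group K] [Finite K] (f : G →* K)
    (hf : Surjective f) (h : V ⟨G⟩) : V ⟨K⟩ := hV.quo ⟨G⟩ ⟨K⟩ f hf h

theorem PsV.pi (hV : PsV V) {ι : Type} [Finite ι] (G : ι → Type) [∀ i, Group (G i)]
    [∀ i, Finite (G i)] (h : ∀ i, V ⟨G i⟩) : V ⟨∀ i, G i⟩ := by
  let σ := (Finite.equivFin ι).symm
  refine hV.inj (G := ∀ j, G (σ j)) (MonoidHom.pi fun j => Pi.evalMonoidHom G (σ j)) ?_
    (hV.prod _ (fun j => ⟨G (σ j)⟩) fun j => h _)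
  intro a b hab
  funext i
  obtain ⟨j, rfl⟩ := σ.surjective i
  exact congrFun hab j

theorem PsV.triv (hV : PsV V) (K : Type) [Group K] [Finite K] [Subsingleton K] : V ⟨K⟩ :=
  hV.inj (G := Empty → Unit) 1 (injective_of_subsingleton _)
    (hV.pi (fun _ : Empty => Unit) fun i => i.elim)

/-- The universal group. -/
abbrev GV (V : FinGp → Prop) (Y : Type) (k : ℕ) : Type :=
  ∀ α : {α : Y × Y → Equiv.Perm (Fin k) // V ⟨Subgroup.closure (Set.range α)⟩},
    Subgroup.closure (Set.range α.1)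

/-- The universal labels. -/
def gv (V : FinGp → Prop) (Y : Type) (k : ℕ) (x y : Y) : GV V Y k :=
  fun α => ⟨α.1 (x, y), Subgroup.subset_closure ⟨_, rfl⟩⟩

theorem gv_mem (hV : PsV V) (Y : Type) [Finite Y] (k : ℕ) : V ⟨GV V Y k⟩ :=
  hV.pi _ fun α => α.2

theorem card_GV (V : FinGp → Prop) (Y : Type) [Finite Y] (k : ℕ) :
    Nat.card (GV V Y k) ≤ k.factorial ^ (k.factorial ^ (Nat.card Y * Nat.card Y)) := by
  rw [← card_GG]
  classical
  refine Nat.card_le_card_of_injective (fun g α =>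
    if h : V ⟨Subgroup.closure (Set.range α)⟩ then (g ⟨α, h⟩).1 else 1) fun g g' h => ?_
  funext α
  have := congrFun h α.1
  simp only [dif_pos α.2] at this
  exact Subtype.ext this

theorem map_lab {Y G G' : Type} [Group G] [Group G'] (f : G →* G') (γ : Y → Y → G) (x : Y)
    (r : List Y) : f (lab γ x r) = lab (fun a b => f (γ a b)) x r := by
  induction r generalizing x with
  | nil => exact map_one f
  | cons y r ih => rw [lab, lab, map_mul, ih]

/-- Equal labels in all small groups of `V`. -/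
def Eqv (V : FinGp → Prop) (k : ℕ) {Y : Type} (x : Y) (r r' : List Y) : Prop :=
  ∀ L : FinGp, V L → Nat.card L.carrier ≤ k → ∀ δ : Y → Y → L.carrier, lab δ x r = lab δ x r'

theorem eqv_gv (hV : PsV V) {Y : Type} {k : ℕ} {x : Y} {r r' : List Y}
    (h : lab (gv V Y k) x r = lab (gv V Y k) x r') : Eqv V k x r r' := by
  classical
  intro L hL hk δ
  obtain ⟨emb⟩ : Nonempty (L.carrier ↪ Fin k) := by
    have := Fintype.ofFinite L.carrier
    apply Function.Embedding.nonempty_of_card_le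
    rw [← Nat.card_eq_fintype_card]
    simpa using hk
  let f : L.carrier →* Equiv.Perm (Fin k) :=
    (Equiv.Perm.viaEmbeddingHom emb).comp (MulAction.toPermHom L.carrier L.carrier)
  have hf : Injective f :=
    (Equiv.Perm.viaEmbeddingHom_injective emb).comp (MulAction.toPerm_injective)
  let α : Y × Y → Equiv.Perm (Fin k) := fun e => f (δ e.1 e.2)
  have h1 : Subgroup.closure (Set.range α) ≤ f.range := by
    rw [Subgroup.closure_le]
    rintro _ ⟨e, rfl⟩
    exact ⟨_, rfl⟩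
  have h2 : V ⟨Subgroup.closure (Set.range α)⟩ :=
    hV.inj ((MonoidHom.ofInjective hf).symm.toMonoidHom.comp (Subgroup.inclusion h1))
      ((MonoidHom.ofInjective hf).symm.injective.comp (Subgroup.inclusion_injective h1)) hL
  apply hf
  let ψ : GV V Y k →* Equiv.Perm (Fin k) :=
    (Subgroup.subtype _).comp (Pi.evalMonoidHom _ ⟨α, h2⟩)
  have h3 := congrArg ψ h
  rw [map_lab, map_lab] at h3
  rw [map_lab, map_lab]
  exact h3

/-- Walks. -/
def Wk {Y : Type} (Γ : Gr Y) : Y → List Y → Y → Prop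
  | x, [], y => Γ.1 x ∧ x = y
  | x, a :: r, y => Γ.1 x ∧ Γ.2 x a ∧ Wk Γ a r y

section
variable {Y Z : Type} {Γ : Gr Y}

theorem wk_iff {x y : Y} {r : List Y} : Wk Γ x r y ↔ Path Γ (x :: r) ∧ r.getLastD x = y := by
  induction r generalizing x with
  | nil => rw [path_single]; rfl
  | cons a r ih => rw [path_cons, Wk, ih, List.getLastD_cons]; tauto

theorem Wk.left {x y : Y} {r : List Y} (h : Wk Γ x r y) : Γ.1 x := by
  cases r <;> exact h.1

theorem Wk.right {x y : Y} {r : List Y} (h : Wk Γ x r y) : Γ.1 y := by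
  induction r generalizing x with
  | nil => exact h.2 ▸ h.1
  | cons a r ih => exact ih h.2.2

theorem Wk.app {x y z : Y} {r s : List Y} (h : Wk Γ x r y) (h' : Wk Γ y s z) :
    Wk Γ x (r ++ s) z := by
  induction r generalizing x with
  | nil => exact h.2 ▸ h'
  | cons a r ih => exact ⟨h.1, h.2.1, ih h.2.2⟩

theorem Wk.lab {G : Type} [Group G] (γ : Y → Y → G) {x y : Y} {r : List Y} (h : Wk Γ x r y)
    (s : List Y) : lab γ x (r ++ s) = lab γ x r * lab γ y s := by
  induction r generalizing x with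
  | nil => rw [← h.2]; exact (one_mul _).symm
  | cons a r ih => exact (congrArg (γ x a * ·) (ih h.2.2)).trans (mul_assoc _ _ _).symm

theorem comp (hV : PsV V) {G K : Type} [Group G] [Finite G] [Finite K] (hG : V ⟨G⟩)
    (γ : Y → Y → G) {F : List Y → Z} (κ : List Y → K) {k : ℕ} (hk : (Nat.card K).factorial ≤ k)
    {x0 : Y}
    (h1 : ∀ r r' y, Wk Γ x0 r y → Wk Γ x0 r' y → κ r = κ r' → ∀ q, F (r ++ q) = F (r' ++ q))
    (h2 : ∀ r r' y, Wk Γ x0 r y → Wk Γ x0 r' y → lab γ x0 r = lab γ x0 r' →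
      ∀ q, F (r ++ q) = F (r' ++ q))
    {p r r' : List Y} {x y : Y} (hp : Wk Γ x0 p x) (hr : Wk Γ x r y) (hr' : Wk Γ x r' y)
    (hy : ∃ t, Wk Γ y t x) (h : Eqv V k x r r') (q : List Y) :
    F (p ++ r ++ q) = F (p ++ r' ++ q) := by
  classical
  let M : Submonoid G :=
    { carrier := {g | ∃ c, Wk Γ x c x ∧ lab γ x c = g}
      one_mem' := ⟨[], ⟨hr.left, rfl⟩, rfl⟩
      mul_mem' := by
        rintro _ _ ⟨c, hc, rfl⟩ ⟨d, hd, rfl⟩
        exact ⟨c ++ d, hc.app hd, hc.lab γ d⟩ }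
  let A : Subgroup G :=
    { M with
      inv_mem' := fun {g} hg => by
        have h3 : g ^ (Nat.card G - 1) * g = 1 := by
          rw [← pow_succ, Nat.sub_add_cancel Nat.card_pos, pow_card_eq_one']
        rw [← eq_inv_of_mul_eq_one_left h3]
        exact M.pow_mem hg _ }
  have hA : ∀ g : A, ∃ c, Wk Γ x c x ∧ lab γ x c = g := fun g => g.2
  choose c hc hc' using hA
  let Φ : A → List Y → Z := fun g q => F (p ++ c g ++ q)
  have hΦ : ∀ (g : A) d, Wk Γ x d x → lab γ x d = g → ∀ q, Φ g q = F (p ++ d ++ q) :=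
    fun g d hd hd' => h2 _ _ x (hp.app (hc g)) (hp.app hd) (by rw [hp.lab, hp.lab, hc', hd'])
  have hR : ∀ g g' a : A, Φ g = Φ g' → Φ (g * a) = Φ (g' * a) := by
    intro g g' a hg
    have h3 : ∀ g q, Φ (g * a) q = Φ g (c a ++ q) := fun g q => by
      rw [hΦ (g * a) _ ((hc g).app (hc a)) (by rw [(hc g).lab, hc', hc']; rfl)]
      simp only [Φ, List.append_assoc]
    funext q
    rw [h3, h3, hg]
  let St : Subgroup A :=
    { carrier := {g | Φ g = Φ 1}
      one_mem' := rfl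
      mul_mem' := fun {g g'} hg hg' => (hR g 1 g' hg).trans (by rw [one_mul]; exact hg')
      inv_mem' := fun {g} hg => by
        have := hR g 1 g⁻¹ hg
        rw [mul_inv_cancel, one_mul] at this
        exact this.symm }
  have hSt : Nat.card (A ⧸ St) ≤ Nat.card K := by
    refine Nat.card_le_card_of_injective (fun a => κ (p ++ c a.out⁻¹)) fun a b hab => ?_
    have h3 := hR _ _ b.out (funext (h1 _ _ x (hp.app (hc _)) (hp.app (hc _)) hab))
    rw [inv_mul_cancel] at h3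
    rw [← a.out_eq, ← b.out_eq]
    exact QuotientGroup.eq.2 h3
  let φ := (MulAction.toPermHom A (A ⧸ St)).rangeRestrict
  have hφ : ∀ g g', φ g = φ g' → Φ g = Φ g' := by
    intro g g' hg
    have h3 : φ (g' * g⁻¹) = 1 := by rw [map_mul, map_inv, hg, mul_inv_cancel]
    have h4 : (((g' * g⁻¹) * 1 : A) : A ⧸ St) = ((1 : A) : A ⧸ St) :=
      congrArg (fun π : (MulAction.toPermHom A (A ⧸ St)).range => π.1 ((1 : A) : A ⧸ St)) h3
    have h5 := hR _ _ g (QuotientGroup.eq.1 h4.symm)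
    simpa using h5.symm
  let b : Y → G := fun y => if h : ∃ t, Wk Γ y t x then lab γ y h.choose else 1
  have hb : ∀ s u, Wk Γ x s u → (∃ t, Wk Γ u t x) → lab γ x s * b u ∈ A := fun s u hs hu =>
    ⟨s ++ hu.choose, hs.app hu.choose_spec, by rw [hs.lab]; simp only [b, dif_pos hu]⟩
  let δ : Y → Y → (MulAction.toPermHom A (A ⧸ St)).range := fun u v =>
    if h : (b u)⁻¹ * γ u v * b v ∈ A then φ ⟨_, h⟩ else 1
  have hδ : ∀ r u s, Wk Γ x s u → Wk Γ u r y →
      ∃ h : (b u)⁻¹ * lab γ u r * b y ∈ A, lab δ u r = φ ⟨_, h⟩ := by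
    intro r
    induction r with
    | nil =>
      rintro u s - ⟨-, rfl⟩
      have h3 : (b u)⁻¹ * lab γ u [] * b u = 1 := by simp [lab]
      exact ⟨h3 ▸ A.one_mem, (map_one φ).symm.trans (congrArg φ (Subtype.ext h3.symm))⟩
    | cons a r ih =>
      intro u s hs hu
      obtain ⟨t, ht⟩ := hy
      have h3 : Wk Γ x (s ++ [a]) a := hs.app ⟨hu.1, hu.2.1, hu.2.2.left, rfl⟩
      obtain ⟨h4, h5⟩ := ih a _ h3 hu.2.2
      have h6 : (b u)⁻¹ * γ u a * b a ∈ A := by
        have h6 := A.mul_mem (A.inv_mem (hb s u hs ⟨_, hu.app ht⟩)) (hb _ a h3 ⟨_, hu.2.2.app ht⟩)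
        rw [hs.lab] at h6
        simpa [lab, mul_assoc] using h6
      have h7 : (b u)⁻¹ * lab γ u (a :: r) * b y =
          (b u)⁻¹ * γ u a * b a * ((b a)⁻¹ * lab γ a r * b y) := by simp [lab, mul_assoc]
      refine ⟨h7 ▸ A.mul_mem h6 h4, ?_⟩
      rw [lab, h5, show δ u a = _ from dif_pos h6, ← map_mul]
      exact congrArg φ (Subtype.ext h7.symm)
  have hL : V ⟨(MulAction.toPermHom A (A ⧸ St)).range⟩ :=
    hV.surj φ (MonoidHom.rangeRestrict_surjective _) (hV.inj A.subtype Subtype.val_injective hG)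
  have h3 := h _ hL (by
    refine (Nat.card_le_card_of_injective _ Subtype.val_injective).trans (le_trans ?_ hk)
    rw [Nat.card_perm]
    exact Nat.factorial_le hSt) δ
  have hx : Wk Γ x [] x := ⟨hr.left, rfl⟩
  obtain ⟨h4, h5⟩ := hδ r x [] hx hr
  obtain ⟨h4', h5'⟩ := hδ r' x [] hx hr'
  have h6 : b x ∈ A := by simpa [lab] using hb [] x hx ⟨_, hx⟩
  have h7 : Φ ⟨_, hb r y hr hy⟩ = Φ ⟨_, hb r' y hr' hy⟩ := by
    apply hφ
    have h7 := congrArg (φ ⟨_, h6⟩ * ·) (h5.symm.trans (h3.trans h5'))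
    simp only [← map_mul] at h7
    refine Eq.trans (congrArg φ (Subtype.ext ?_)) (h7.trans (congrArg φ (Subtype.ext ?_))) <;>
      simp [mul_assoc]
  let g : A := ⟨_, hb r y hr hy⟩
  have h8 : ∀ s (hs : Wk Γ x s y), F (p ++ s ++ q) =
      Φ ⟨_, hb s y hs hy⟩ (c g⁻¹ ++ r ++ q) := by
    intro s hs
    have h8 : b y = lab γ y hy.choose := dif_pos hy
    rw [hΦ _ _ (hs.app hy.choose_spec) (by rw [hs.lab, ← h8])]
    have h9 := h2 _ _ y (hp.app hs) (hp.app ((hs.app hy.choose_spec).app ((hc g⁻¹).app hr))) (by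
      rw [hp.lab, hp.lab, (hs.app hy.choose_spec).lab, hs.lab, (hc _).lab, hc', ← h8]
      simp [g, mul_assoc]) q
    simpa only [List.append_assoc] using h9
  rw [h8 r hr, h8 r' hr', h7]

theorem wk_dec {x y u : Y} {r : List Y} (h : Wk Γ u r y) (hu : ∃ t, Wk Γ u t x)
    (hy : ¬∃ t, Wk Γ y t x) : ∃ r1 a b r2, r = r1 ++ b :: r2 ∧ Wk Γ u r1 a ∧ (∃ t, Wk Γ a t x) ∧
      Γ.2 a b ∧ (¬∃ t, Wk Γ b t x) ∧ Wk Γ b r2 y := by
  induction r generalizing u with
  | nil => exact absurd (h.2 ▸ hu) hy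
  | cons c r ih =>
    by_cases hc : ∃ t, Wk Γ c t x
    · obtain ⟨r1, a, b, r2, rfl, h1, h2⟩ := ih h.2.2 hc
      exact ⟨c :: r1, a, b, r2, rfl, ⟨h.1, h.2.1, h1⟩, h2⟩
    · exact ⟨[], u, c, r, rfl, ⟨h.1, rfl⟩, hu, h.2.1, hc, h.2.2⟩

theorem lab_in {G : Type} [Group G] {δ δ' : Y → Y → G} {x a u : Y} {r : List Y} (h : Wk Γ u r a)
    (ha : ∃ t, Wk Γ a t x) (hδ : ∀ s t, (∃ l, Wk Γ s l x) → (∃ l, Wk Γ t l x) → δ s t = δ' s t) :
    lab δ u r = lab δ' u r := by
  obtain ⟨t, ht⟩ := ha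
  induction r generalizing u with
  | nil => rfl
  | cons c r ih => rw [lab, lab, ih h.2.2, hδ _ _ ⟨_, h.app ht⟩ ⟨_, h.2.2.app ht⟩]

theorem lab_out {G : Type} [Group G] {δ δ' : Y → Y → G} {x y u : Y} {r : List Y} (h : Wk Γ u r y)
    (hu : ¬∃ t, Wk Γ u t x)
    (hδ : ∀ s t, (¬∃ l, Wk Γ s l x) → (¬∃ l, Wk Γ t l x) → δ s t = δ' s t) :
    lab δ u r = lab δ' u r := by
  induction r generalizing u with
  | nil => rfl
  | cons c r ih =>
    have h1 : ¬∃ t, Wk Γ c t x := fun ⟨t, ht⟩ => hu ⟨c :: t, h.1, h.2.1, ht⟩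
    rw [lab, lab, ih h.2.2 h1, hδ _ _ hu h1]

theorem lab_one {G : Type} [Group G] (x : Y) (r : List Y) : lab (fun _ _ => (1 : G)) x r = 1 := by
  induction r generalizing x with
  | nil => rfl
  | cons c r ih => rw [lab, ih, one_mul]

/-- Either all groups of `V` are small or `V` has a small nontrivial group. -/
def Big (V : FinGp → Prop) (w : ℕ) : Prop :=
  (∀ G, V G → Nat.card G.carrier ≤ w) ∨ ∃ W, V W ∧ Nontrivial W.carrier ∧ Nat.card W.carrier ≤ w

theorem exists_big (V : FinGp → Prop) : ∃ w, Big V w := by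
  by_cases h : ∃ W, V W ∧ Nontrivial W.carrier
  · obtain ⟨W, h1, h2⟩ := h
    exact ⟨_, Or.inr ⟨W, h1, h2, le_rfl⟩⟩
  · refine ⟨1, Or.inl fun G hG => ?_⟩
    have : Subsingleton G.carrier := not_nontrivial_iff_subsingleton.1 fun h1 => h ⟨G, hG, h1⟩
    exact Finite.card_le_one_iff_subsingleton.2 this

theorem keyW (hV : PsV V) {G K : Type} [Group G] [Finite G] [Finite K] (hG : V ⟨G⟩)
    (γ : Y → Y → G) {F : List Y → Z} (κ : List Y → K) {k w : ℕ} (hw : Big V w)
    (hk : (Nat.card K).factorial + w ≤ k) {x0 : Y}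
    (h1 : ∀ r r' y, Wk Γ x0 r y → Wk Γ x0 r' y → κ r = κ r' → ∀ q, F (r ++ q) = F (r' ++ q))
    (h2 : ∀ r r' y, Wk Γ x0 r y → Wk Γ x0 r' y → lab γ x0 r = lab γ x0 r' →
      ∀ q, F (r ++ q) = F (r' ++ q))
    {r r' : List Y} {y : Y} (hr : Wk Γ x0 r y) (hr' : Wk Γ x0 r' y) (h : Eqv V k x0 r r') :
    F r = F r' := by
  classical
  rcases hw with hw | ⟨W, hW, hW1, hW2⟩
  · simpa using h2 r r' y hr hr' (h _ hG ((hw _ hG).trans (by omega)) γ) []
  obtain ⟨ω, hω⟩ := exists_ne (1 : W.carrier)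
  have main : ∀ n x p p' r r', r.length < n → Wk Γ x0 p x → Wk Γ x0 p' x →
      (∀ q, F (p ++ q) = F (p' ++ q)) → Wk Γ x r y → Wk Γ x r' y → Eqv V k x r r' →
      F (p ++ r) = F (p' ++ r') := by
    intro n
    induction n with
    | zero => intro _ _ _ _ _ h; omega
    | succ n ih =>
      intro x p p' r r' hn hp hp' hq hr hr' h
      by_cases hy : ∃ t, Wk Γ y t x
      · have h3 := comp hV hG γ κ (by omega) h1 h2 hp hr hr' hy h []
        rw [List.append_nil, List.append_nil] at h3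
        rw [h3, hq]
      have hx : ∃ t, Wk Γ x t x := ⟨[], hr.left, rfl⟩
      obtain ⟨r1, a, b, r2, rfl, h3, h4, h5, h6, h7⟩ := wk_dec hr hx hy
      obtain ⟨r1', a', b', r2', rfl, h3', h4', h5', h6', h7'⟩ := wk_dec hr' hx hy
      have h8 : ∀ L, V L → Nat.card L.carrier ≤ k → ∀ δ : Y → Y → L.carrier,
          lab δ x r1 * (δ a b * lab δ b r2) = lab δ x r1' * (δ a' b' * lab δ b' r2') := by
        intro L hL hL' δ
        have := h L hL hL' δ
        rwa [h3.lab, h3'.lab] at this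
      obtain ⟨rfl, rfl⟩ : a' = a ∧ b' = b := by
        have h9 := h8 W hW (by omega) fun s t => if s = a ∧ t = b then ω else 1
        have h10 : ∀ s t, (∃ l, Wk Γ s l x) → (∃ l, Wk Γ t l x) →
            (if s = a ∧ t = b then ω else 1) = 1 := fun s t _ ht =>
          if_neg fun h : s = a ∧ t = b => h6 (h.2 ▸ ht)
        have h11 : ∀ s t, (¬∃ l, Wk Γ s l x) → (¬∃ l, Wk Γ t l x) →
            (if s = a ∧ t = b then ω else 1) = 1 := fun s t hs _ =>
          if_neg fun h : s = a ∧ t = b => hs (h.1 ▸ h4)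
        rw [lab_in h3 h4 h10, lab_in h3' h4' h10, lab_out h7 h6 h11, lab_out h7' h6' h11] at h9
        simp only [lab_one, and_self, if_true, one_mul, mul_one] at h9
        by_contra h12
        exact hω (h9.trans (if_neg h12))
      have h9 : Eqv V k x r1 r1' := by
        intro L hL hL' δ
        have h9 := h8 L hL hL' fun s t => if ∃ l, Wk Γ t l x then δ s t else 1
        have h10 : ∀ s t, (∃ l, Wk Γ s l x) → (∃ l, Wk Γ t l x) →
            (if ∃ l, Wk Γ t l x then δ s t else 1) = δ s t := fun s t _ ht => if_pos ht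
        have h11 : ∀ s t, (¬∃ l, Wk Γ s l x) → (¬∃ l, Wk Γ t l x) →
            (if ∃ l, Wk Γ t l x then δ s t else 1) = 1 := fun s t _ ht => if_neg ht
        rw [lab_in h3 h4 h10, lab_in h3' h4' h10, lab_out h7 h6 h11, lab_out h7' h6 h11] at h9
        simpa only [lab_one, if_neg h6, mul_one] using h9
      have h10 : Eqv V k b' r2 r2' := by
        intro L hL hL' δ
        have h9 := h8 L hL hL' fun s t => if ∃ l, Wk Γ s l x then 1 else δ s t
        have h10 : ∀ s t, (∃ l, Wk Γ s l x) → (∃ l, Wk Γ t l x) →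
            (if ∃ l, Wk Γ s l x then 1 else δ s t) = 1 := fun s t hs _ => if_pos hs
        have h11 : ∀ s t, (¬∃ l, Wk Γ s l x) → (¬∃ l, Wk Γ t l x) →
            (if ∃ l, Wk Γ s l x then 1 else δ s t) = δ s t := fun s t hs _ => if_neg hs
        rw [lab_in h3 h4 h10, lab_in h3' h4 h10, lab_out h7 h6 h11, lab_out h7' h6 h11] at h9
        simpa only [lab_one, if_pos h4, one_mul] using h9
      have h11 : Wk Γ a' [b'] b' := ⟨h3.right, h5, h7.left, rfl⟩
      have h12 := ih b' (p ++ r1 ++ [b']) (p' ++ r1' ++ [b']) r2 r2' (by simp at hn; omega)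
        ((hp.app h3).app h11) ((hp'.app h3').app h11) (fun q => by
          have h12 := comp hV hG γ κ (by omega) h1 h2 hp h3 h3' h4 h9 (b' :: q)
          have h13 := hq (r1' ++ b' :: q)
          simp only [List.append_assoc, List.singleton_append] at h12 h13 ⊢
          exact h12.trans h13) h7 h7' h10
      simpa using h12
  exact main _ x0 [] [] r r' (Nat.lt_succ_self _) ⟨hr.left, rfl⟩ ⟨hr.left, rfl⟩ (fun _ => rfl)
    hr hr' h

theorem sgn_wk {G : Type} [Group G] {γ : Y → Y → G} {x y : Y} {r : List Y} (h : Wk Γ x r y) :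
    sgn γ (x :: r) = some (x, lab γ x r, y) := by rw [sgn, (wk_iff.1 h).2]

theorem keyV (hV : PsV V) {G K : Type} [Group G] [Finite G] [Finite K] (hG : V ⟨G⟩)
    (γ : Y → Y → G) {F : List Y → Z} (κ : List Y → K) {k w : ℕ} (hw : Big V w)
    (hk : (Nat.card K).factorial + w ≤ k)
    (h1 : ∀ p p', Path Γ p → Path Γ p' → p.head? = p'.head? → p.getLast? = p'.getLast? →
      κ p = κ p' → ∀ q, F (p ++ q) = F (p' ++ q))
    (h2 : ∀ p p', Path Γ p → Path Γ p' → sgn γ p = sgn γ p' → ∀ q, F (p ++ q) = F (p' ++ q))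
    {u u' : List Y} (hu : Path Γ u) (hu' : Path Γ u')
    (h : sgn (gv V Y k) u = sgn (gv V Y k) u') : F u = F u' := by
  obtain ⟨x0, r, rfl⟩ := List.exists_cons_of_ne_nil hu.1
  obtain ⟨x0', r', rfl⟩ := List.exists_cons_of_ne_nil hu'.1
  simp only [sgn, Option.some.injEq, Prod.mk.injEq] at h
  obtain ⟨rfl, hl, hlast⟩ := h
  refine keyW (Γ := Γ) hV hG γ (F := fun r => F (x0 :: r)) (fun r => κ (x0 :: r)) hw hk
    (fun r r' y hr hr' => h1 (x0 :: r) (x0 :: r') (wk_iff.1 hr).1 (wk_iff.1 hr').1 rfl ?_)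
    (fun r r' y hr hr' h => h2 (x0 :: r) (x0 :: r') (wk_iff.1 hr).1 (wk_iff.1 hr').1 ?_)
    (wk_iff.2 ⟨hu, rfl⟩) (wk_iff.2 ⟨hu', hlast.symm⟩) (eqv_gv hV hl)
  · have h3 := (wk_iff.1 hr).2.trans (wk_iff.1 hr').2.symm
    simpa [List.getLast?_cons, List.getLastD_eq_getLast?] using h3
  · rw [sgn_wk hr, sgn_wk hr', h]

end

end Pool.Agent.H.MP_152bd8_lc
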