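import Pool.Agent.H.MP_152bd8_lc.A

/-! Subgroups of finite semigroups and Rees coordinates. -/

namespace Pool.Agent.H.MP_152bd8_lc

open Function Pool.Agent.H.MP_88bd66_lc Pool.Agent.H.MP_99598b_lc

variable {V : FinGp → Prop}

theorem exists_gp {U : Type} [Semigroup U] [Finite U] (Q : U → Prop) (e : U) (he : Q e)
    (h1 : ∀ x, Q x → e * x = x) (hm : ∀ x y, Q x → Q y → Q (x * y))
    (hi : ∀ x, Q x → ∃ y, Q y ∧ y * x = e) :
    ∃ (G : FinGp) (j : G.carrier →ₙ* U), Injective j ∧ ∀ x, Q x ↔ ∃ g, j g = x := by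
  choose i hi hi' using hi
  letI : Mul {x // Q x} := ⟨fun x y => ⟨x.1 * y.1, hm _ _ x.2 y.2⟩⟩
  letI : One {x // Q x} := ⟨⟨e, he⟩⟩
  letI : Inv {x // Q x} := ⟨fun x => ⟨i x.1 x.2, hi _ _⟩⟩
  letI : Group {x // Q x} := Group.ofLeftAxioms (fun a b c => Subtype.ext (mul_assoc a.1 b.1 c.1))
    (fun a => Subtype.ext (h1 _ a.2)) (fun a => Subtype.ext (hi' _ a.2))
  exact ⟨⟨{x // Q x}⟩, ⟨Subtype.val, fun _ _ => rfl⟩, Subtype.val_injective,
    fun x => ⟨fun h => ⟨⟨x, h⟩, rfl⟩, fun h => h.elim fun g hg => by rw [← hg]; exact g.2⟩⟩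

theorem Gp.comap {S T : Type} [Mul S] [Mul T] (h : Gp V T) (f : S →ₙ* T) (hf : Injective f) :
    Gp V S := fun G j hj => h G (f.comp j) (hf.comp hj)

theorem Gp.pi (hV : PsV V) {I : Type} [Finite I] {S : I → Type} [∀ i, Mul (S i)]
    (h : ∀ i, Gp V (S i)) : Gp V (∀ i, S i) := by
  intro G j hj
  let c := fun i => Con.ker ((Pi.evalMulHom S i).comp j)
  have : ∀ i, Finite (c i).Quotient := fun i => Quotient.finite _
  refine hV.inj (G := ∀ i, (c i).Quotient) (MonoidHom.pi fun i => (c i).mk') (fun a b hab => ?_)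
    (hV.pi _ fun i => h i _ ⟨Quotient.lift (fun a => j a i) fun _ _ h => h, ?_⟩ ?_)
  · exact hj (funext fun i => (Con.eq _).1 (congrFun hab i))
  · rintro ⟨a⟩ ⟨b⟩
    exact congrFun (map_mul j a b) i
  · rintro ⟨a⟩ ⟨b⟩ hab
    exact Quotient.sound hab

theorem pw_right {S : Type} [Semigroup S] (w x : S) (n : ℕ) : ∃ y, pw (w * x) n = y * x := by
  cases n with
  | zero => exact ⟨w, rfl⟩
  | succ n => exact ⟨_, (mul_assoc _ _ _).symm⟩

theorem Gp.map (hV : PsV V) {S T : Type} [Semigroup S] [Finite S] [Semigroup T] (h : Gp V S)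
    (π : S →ₙ* T) (hπ : Surjective π) : Gp V T := by
  intro G j hj
  let U : Subsemigroup (S × G.carrier) :=
    { carrier := {a | π a.1 = j a.2}
      mul_mem' := fun {a b} ha hb => by
        show π (a.1 * b.1) = j (a.2 * b.2)
        rw [map_mul, map_mul, ha, hb] }
  have hU : ∀ g, ∃ u : U, u.1.2 = g := fun g => ⟨⟨((hπ (j g)).choose, g), (hπ _).choose_spec⟩, rfl⟩
  have hid : ∀ x : U, pw x (ex (Nat.card U)) * pw x (ex (Nat.card U)) = pw x (ex (Nat.card U)) :=
    om_idem le_rfl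
  obtain ⟨e, he⟩ := exists_minimalFor_of_wellFoundedLT (fun e : U => e * e = e)
    (fun e => {x | e * x = x ∧ x * e = x}) ⟨_, hid (hU 1).choose⟩
  obtain ⟨K, k, hk, hK⟩ := exists_gp (fun x => e * x = x ∧ x * e = x) e ⟨he.1, he.1⟩
    (fun x hx => hx.1) (fun x y hx hy => ⟨by rw [← mul_assoc, hx.1], by rw [mul_assoc, hy.2]⟩)
    (fun x hx => by
      have h1 : e * pw x (ex (Nat.card U)) = pw x (ex (Nat.card U)) := by
        rcases pw_left x (ex (Nat.card U)) with h1 | ⟨y, h1⟩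
        · rw [h1, hx.1]
        · rw [h1, ← mul_assoc, hx.1]
      obtain ⟨y, hy⟩ := pw_right e x (ex (Nat.card U))
      rw [hx.1] at hy
      have h2 : pw x (ex (Nat.card U)) * e = pw x (ex (Nat.card U)) := by rw [hy, mul_assoc, hx.2]
      have h3 := (he.2 (hid x) (fun u hu => ⟨by rw [← hu.1, ← mul_assoc, h1],
        by rw [← hu.2, mul_assoc, h2]⟩) ⟨he.1, he.1⟩).1
      refine ⟨e * y * e, ⟨by rw [← mul_assoc, ← mul_assoc, he.1], by rw [mul_assoc, he.1]⟩, ?_⟩
      rw [mul_assoc, hx.1, mul_assoc, ← hy, h1, ← h2, h3])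
  have h1 : e.1.2 = 1 := mul_eq_left.1 (congrArg (fun u : U => u.1.2) he.1)
  refine hV.quo K G (MonoidHom.mk' (fun a => (k a).1.2) fun a b => by rw [map_mul]; rfl)
    (fun g => ?_) (h K ⟨fun a => (k a).1.1, fun a b => by rw [map_mul]; rfl⟩ fun a b hab =>
      hk (Subtype.ext (Prod.ext hab (hj ((k a).2.symm.trans ((congrArg π hab).trans (k b).2))))))
  obtain ⟨u, rfl⟩ := hU g
  obtain ⟨a, ha⟩ := (hK (e * u * e)).1
    ⟨by rw [← mul_assoc, ← mul_assoc, he.1], by rw [mul_assoc, he.1]⟩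
  refine ⟨a, ?_⟩
  show (k a).1.2 = _
  rw [ha]
  show e.1.2 * u.1.2 * e.1.2 = _
  rw [h1, one_mul, mul_one]

theorem gp_RS (hV : PsV V) {Y G : Type} [Group G] [Finite G] (hG : V ⟨G⟩) (Γ : Gr Y)
    (γ : Y → Y → G) : Gp V (RS Γ γ) := by
  intro K j hj
  rcases h0 : j 1 with _ | ⟨x, g, y⟩
  · have : Subsingleton K.carrier := ⟨fun a b => hj (by
      rw [← mul_one a, ← mul_one b, map_mul, map_mul, rs_none _ _ (Or.inr h0),
        rs_none _ _ (Or.inr h0)])⟩
    exact hV.triv K.carrier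
  have h1 : Γ.2 y x := by
    by_contra h1
    have h2 := rs_mul' h0 h0 h1
    rw [← map_mul, mul_one, h0] at h2
    cases h2
  have h2 : ∀ a, ∃ c, j a = some (x, c, y) := by
    intro a
    rcases h2 : j a with _ | ⟨x', g', y'⟩
    · have h3 := rs_none (j a) (j a⁻¹) (Or.inl h2)
      rw [← map_mul, mul_inv_cancel, h0] at h3
      cases h3
    · have h3 : j 1 * j a = some (x', g', y') := by rw [← map_mul, one_mul, h2]
      have h4 : j a * j 1 = some (x', g', y') := by rw [← map_mul, mul_one, h2]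
      by_cases h5 : Γ.2 y x'
      · by_cases h6 : Γ.2 y' x
        · rw [rs_mul h0 h2 h5] at h3
          rw [rs_mul h2 h0 h6] at h4
          injection h3 with h3
          injection h4 with h4
          exact ⟨g', by rw [← (Prod.mk.inj h3).1, ← (Prod.mk.inj (Prod.mk.inj h4).2).2]⟩
        · rw [rs_mul' h2 h0 h6] at h4; cases h4
      · rw [rs_mul' h0 h2 h5] at h3; cases h3
  choose c hc using h2
  refine hV.inj (MonoidHom.mk' (fun a => c a * γ y x) fun a b => ?_) (fun a b hab => hj ?_) hG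
  · have h3 := rs_mul (hc a) (hc b) h1
    rw [← map_mul, hc] at h3
    injection h3 with h3
    rw [(Prod.mk.inj (Prod.mk.inj h3).2).1]
    simp only [mul_assoc]
  · rw [hc, hc, mul_right_cancel (show c a * γ y x = c b * γ y x from hab)]

/-- 0-simple over groups in `V`. -/
def ZG (V : FinGp → Prop) (T : Type) [Semigroup T] : Prop := ZS T ∧ Gp V T

/-- Embeddable in a finite 0-simple semigroup over groups in `V`. -/
def SZ (V : FinGp → Prop) (U : Type) [Semigroup U] : Prop :=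
  ∃ (T : Type) (_ : Semigroup T) (_ : Finite T), ZG V T ∧ ∃ f : U →ₙ* T, Injective f

theorem SZ.comap {S T : Type} [Semigroup S] [Semigroup T] (h : SZ V T) (f : S →ₙ* T)
    (hf : Injective f) : SZ V S := by
  obtain ⟨T', _, _, h, g, hg⟩ := h
  exact ⟨T', _, ‹_›, h, g.comp f, hg.comp hf⟩

theorem sz_RS (hV : PsV V) {Y G : Type} [Finite Y] [Group G] [Finite G] (hG : V ⟨G⟩) (Γ : Gr Y)
    (γ : Y → Y → G) : SZ V (RS Γ γ) := by
  let Γ' : Gr (Option Y) := (fun _ => True, fun a b =>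
    match a, b with
    | some x, some y => Γ.2 x y
    | _, _ => True)
  let γ' : Option Y → Option Y → G := fun a b =>
    match a, b with
    | some x, some y => γ x y
    | _, _ => 1
  let f : RS Γ γ →ₙ* RS Γ' γ' :=
    { toFun := Option.map fun a => (some a.1, a.2.1, some a.2.2)
      map_mul' := by
        rintro (_ | ⟨x, g, y⟩) (_ | ⟨x', g', y'⟩) <;> try rfl
        by_cases h : Γ.2 y x'
        · rw [rs_mul rfl rfl h]
          exact (rs_mul (Γ := Γ') (γ := γ') (y := some y) (x' := some x') rfl rfl h).symm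
        · rw [rs_mul' rfl rfl h]
          exact (rs_mul' (Γ := Γ') (γ := γ') (y := some y) (x' := some x') rfl rfl h).symm }
  refine ⟨RS Γ' γ', inferInstance, inferInstance, ⟨⟨none,
    fun a => ⟨rs_none _ _ (Or.inl rfl), rs_none _ _ (Or.inr rfl)⟩,
    ⟨some (none, 1, none), fun h => by cases h⟩, ?_⟩, gp_RS hV hG _ _⟩, f,
    Option.map_injective fun a b h => ?_⟩
  · rintro (_ | ⟨x, g, y⟩) ha (_ | ⟨x', g', y'⟩)
    · exact absurd rfl ha
    · exact absurd rfl ha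
    · exact ⟨none, none, (rs_none _ _ (Or.inr rfl)).symm⟩
    · refine ⟨some (x', g' * g⁻¹, none), some (none, 1, y'), Eq.symm ?_⟩
      refine (rs_mul (Γ := Γ') (γ := γ') (rs_mul (Γ := Γ') (γ := γ') rfl rfl trivial) rfl
        (by cases y <;> trivial)).trans ?_
      cases y <;> simp [γ']
  · simp only [Prod.mk.injEq, Option.some.injEq] at h
    exact Prod.ext h.1 (Prod.ext h.2.1 h.2.2)

/-- Rees coordinates. -/
def Co (V : FinGp → Prop) {M : Type} [Semigroup M] (zer : M → Prop) : Prop :=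
  ∃ (G : FinGp) (a b : M → M) (g : M → G.carrier) (p : M → M → G.carrier), V G ∧
    (∀ x y, ¬zer (x * y) → a (x * y) = a x ∧ b (x * y) = b y ∧
      g (x * y) = g x * p (b x) (a y) * g y) ∧
    (∀ x y, ¬zer x → ¬zer y → a x = a y → b x = b y → g x = g y → x = y) ∧
    ∀ x y x' y', ¬zer x → ¬zer y → ¬zer x' → ¬zer y' → b x = b x' → a y = a y' →
      zer (x * y) → zer (x' * y')

theorem co_of_zs {T : Type} [Semigroup T] [Finite T] {z : T} (hz : ∀ a, z * a = z ∧ a * z = z)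
    (h0 : ∃ a, a ≠ z) (h : ∀ a, a ≠ z → ∀ b, ∃ c d, b = c * a * d) (hG : Gp V T) :
    Co V fun a => a = z := by
  classical
  have hN := nice_of_zs hz h le_rfl
  have : Nonempty T := ⟨z⟩
  have conn : ∀ u v, u ≠ z → v ≠ z → ∃ w, u * w * v ≠ z := by
    intro u v hu hv
    obtain ⟨c, d, h1⟩ := h u hu u
    obtain ⟨c2, d2, h2⟩ := h v hv d
    refine ⟨c2, fun h3 => hu ?_⟩
    have h4 : u = c * (u * c2 * v) * d2 := by
      conv_lhs => rw [h1, h2]
      simp only [mul_assoc]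
    rw [h4, h3, (hz _).2, (hz _).1]
  have hl : ∀ x y, x * y ≠ z → x ≠ z := fun x y h1 h2 => h1 (by rw [h2, (hz _).1])
  have hr : ∀ x y, x * y ≠ z → y ≠ z := fun x y h1 h2 => h1 (by rw [h2, (hz _).2])
  have hR : ∀ x y, x * y ≠ z → ∃ d, x = x * y * d := by
    intro x y hxy
    obtain ⟨w, hw⟩ := conn _ x hxy (hl _ _ hxy)
    have h1 := hN.reg x (y * w * x) (Or.inr ⟨_, rfl⟩) (by simpa only [mul_assoc] using hw)
    rcases pw_left (y * w * x) (ex (Nat.card T)) with h2 | ⟨u, h2⟩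
    · exact ⟨w * x, by rw [h2] at h1; simpa only [mul_assoc] using h1.symm⟩
    · exact ⟨w * x * u, by rw [h2] at h1; simpa only [mul_assoc] using h1.symm⟩
  have hL : ∀ x y, y * x ≠ z → ∃ d, x = d * (y * x) := by
    intro x y hxy
    obtain ⟨w, hw⟩ := conn x _ (hr _ _ hxy) hxy
    have h1 := hN.reg x (w * (y * x)) (Or.inr ⟨_, (mul_assoc _ _ _).symm⟩)
      (by simpa only [mul_assoc] using hw)
    obtain ⟨u, hu⟩ := pw_right w (y * x) (ex (Nat.card T))
    exact ⟨x * u, by rw [mul_assoc, ← hu, h1]⟩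
  have hreg : ∀ x, x ≠ z → ∃ u, x = x * u * x := by
    intro x hx
    obtain ⟨w, hw⟩ := conn x x hx hx
    have h1 := hN.reg x (w * x) (Or.inr ⟨_, rfl⟩) (by simpa only [mul_assoc] using hw)
    obtain ⟨u, hu⟩ := pw_right w x (ex (Nat.card T))
    exact ⟨u, by rw [mul_assoc, ← hu, h1]⟩
  obtain ⟨e, he, he'⟩ : ∃ e, e ≠ z ∧ e * e = e := by
    obtain ⟨x, hx⟩ := h0
    obtain ⟨u, hu⟩ := hreg x hx
    exact ⟨x * u, hl _ x (hu ▸ hx), by rw [← mul_assoc, ← hu]⟩
  obtain ⟨G, j, hj, hQ⟩ := exists_gp (fun g => e * g = g ∧ g * e = g ∧ g ≠ z) e ⟨he', he', he⟩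
    (fun x hx => hx.1) (fun x y hx hy => ⟨by rw [← mul_assoc, hx.1], by rw [mul_assoc, hy.2.1], by
      have := hN.cat x e y (by rw [hx.2.1]; exact hx.2.2) (by rw [hy.1]; exact hy.2.2)
      rwa [hx.2.1] at this⟩) (fun x hx => by
      obtain ⟨d, hd⟩ := hL e x (by rw [hx.2.1]; exact hx.2.2)
      rw [hx.2.1] at hd
      have h1 : e * d * e * x = e := by rw [mul_assoc, hx.1, mul_assoc, ← hd, he']
      exact ⟨e * d * e, ⟨by rw [← mul_assoc, ← mul_assoc, he'], by rw [mul_assoc, he'],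
        hl _ x (by rw [h1]; exact he)⟩, h1⟩)
  have hRr : ∀ x y, x * y ≠ z → Set.range (x * y * ·) = Set.range (x * ·) := by
    intro x y hxy
    obtain ⟨d, hd⟩ := hR x y hxy
    refine Set.ext fun u => ⟨?_, ?_⟩
    · rintro ⟨v, rfl⟩; exact ⟨y * v, (mul_assoc _ _ _).symm⟩
    · rintro ⟨v, rfl⟩; exact ⟨d * v, by show x * y * (d * v) = x * v; rw [← mul_assoc, ← hd]⟩
  have hLr : ∀ x y, y * x ≠ z → Set.range (· * (y * x)) = Set.range (· * x) := by
    intro x y hxy
    obtain ⟨d, hd⟩ := hL x y hxy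
    refine Set.ext fun u => ⟨?_, ?_⟩
    · rintro ⟨v, rfl⟩; exact ⟨v * y, mul_assoc _ _ _⟩
    · rintro ⟨v, rfl⟩; exact ⟨v * d, by show v * d * (y * x) = v * x; rw [mul_assoc, ← hd]⟩
  let a : T → T := fun x => Classical.epsilon fun a => a * e = a ∧
    Set.range (a * ·) = Set.range (x * ·)
  let b : T → T := fun x => Classical.epsilon fun b => e * b = b ∧
    Set.range (· * b) = Set.range (· * x)
  have ha : ∀ x, x ≠ z → a x * e = a x ∧ ∃ s, a x * s = x := by
    intro x hx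
    obtain ⟨w, hw⟩ := conn x e hx he
    have h1 := Classical.epsilon_spec (p := fun a => a * e = a ∧
      Set.range (a * ·) = Set.range (x * ·)) ⟨x * w * e, by rw [mul_assoc, he'], by
        rw [mul_assoc] at hw ⊢; exact hRr _ _ hw⟩
    obtain ⟨u, hu⟩ := hreg x hx
    exact ⟨h1.1, (Set.ext_iff.1 h1.2 x).2 ⟨u * x, (mul_assoc _ _ _).symm.trans hu.symm⟩⟩
  have hb : ∀ x, x ≠ z → e * b x = b x ∧ ∃ s, s * b x = x := by
    intro x hx
    obtain ⟨w, hw⟩ := conn e x he hx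
    have h1 := Classical.epsilon_spec (p := fun b => e * b = b ∧
      Set.range (· * b) = Set.range (· * x)) ⟨e * w * x, by rw [← mul_assoc, ← mul_assoc, he'],
        hLr _ _ hw⟩
    obtain ⟨u, hu⟩ := hreg x hx
    exact ⟨h1.1, (Set.ext_iff.1 h1.2 x).2 ⟨x * u, hu.symm⟩⟩
  have hg : ∀ x, ∃ g, x ≠ z → a x * j g * b x = x := by
    intro x
    by_cases hx : x = z
    · exact ⟨1, fun h => absurd hx h⟩
    obtain ⟨h1, s, hs⟩ := ha x hx
    obtain ⟨h2, t, ht⟩ := hb x hx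
    obtain ⟨u, hu⟩ := hreg x hx
    have h3 : a x * (e * (s * u * t) * e) * b x = x := by
      calc _ = a x * e * s * u * (t * (e * b x)) := by simp only [mul_assoc]
        _ = x := by rw [h1, h2, hs, ht, ← hu]
    obtain ⟨g, hg⟩ := (hQ (e * (s * u * t) * e)).1 ⟨by rw [← mul_assoc, ← mul_assoc, he'],
      by rw [mul_assoc, he'], hr _ _ (hl _ _ (by rw [h3]; exact hx))⟩
    exact ⟨g, fun _ => by rw [hg, h3]⟩
  choose g hg using hg
  have hu : ∀ x y, x ≠ z → y ≠ z → ∃ d d', ∀ c, d * (a x * j c * b y) * d' = j c := by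
    intro x y hx hy
    obtain ⟨h1, s, hs⟩ := ha x hx
    obtain ⟨h2, t, ht⟩ := hb y hy
    obtain ⟨d, hd⟩ := hL e (a x) (by rw [h1]; exact hl _ s (by rw [hs]; exact hx))
    obtain ⟨d', hd'⟩ := hR e (b y) (by rw [h2]; exact hr t _ (by rw [ht]; exact hy))
    rw [h1] at hd
    rw [h2] at hd'
    refine ⟨d, d', fun c => ?_⟩
    have h3 := (hQ _).2 ⟨c, rfl⟩
    calc _ = d * a x * j c * (b y * d') := by simp only [mul_assoc]
      _ = _ := by rw [← hd, ← hd', h3.1, h3.2.1]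
  let p : T → T → G.carrier := fun u v => invFun j (u * v)
  have hp : ∀ x y, x ≠ z → y ≠ z → b x * a y ≠ z →
      x * y = a x * j (g x * p (b x) (a y) * g y) * b y := by
    intro x y hx hy hxy
    have h1 : j (p (b x) (a y)) = b x * a y := invFun_eq ((hQ _).1
      ⟨by rw [← mul_assoc, (hb x hx).1], by rw [mul_assoc, (ha y hy).1], hxy⟩)
    rw [map_mul, map_mul, h1]
    conv_lhs => rw [← hg x hx, ← hg y hy]
    simp only [mul_assoc]
  have hp' : ∀ x y, x ≠ z → y ≠ z → (x * y = z ↔ b x * a y = z) := by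
    intro x y hx hy
    constructor
    · intro h1
      by_contra h2
      obtain ⟨d, d', h3⟩ := hu x y hx hy
      have h4 := h3 (g x * p (b x) (a y) * g y)
      rw [← hp x y hx hy h2, h1, (hz _).2, (hz _).1] at h4
      exact ((hQ _).2 ⟨_, rfl⟩).2.2 h4.symm
    · intro h1
      calc x * y = a x * j (g x) * (b x * a y) * (j (g y) * b y) := by
            conv_lhs => rw [← hg x hx, ← hg y hy]
            simp only [mul_assoc]
        _ = z := by rw [h1, (hz _).2, (hz _).1]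
  refine ⟨G, a, b, g, p, hG G j hj, fun x y hxy => ?_, fun x y hx hy h1 h2 h3 => ?_,
    fun x y x' y' hx hy hx' hy' h1 h2 h3 => ?_⟩
  · have h1 : a (x * y) = a x := by simp only [a, hRr x y hxy]
    have h2 : b (x * y) = b y := by simp only [b, hLr y x hxy]
    refine ⟨h1, h2, hj ?_⟩
    have hx := hl _ _ hxy
    have hy := hr _ _ hxy
    obtain ⟨d, d', h3⟩ := hu x y hx hy
    rw [← h3, ← h3 (_ * g y), ← hp x y hx hy (mt (hp' x y hx hy).2 hxy), ← h1, ← h2, hg _ hxy]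
  · rw [← hg x hx, h1, h2, h3, hg y hy]
  · exact (hp' x' y' hx' hy').2 (by rw [← h1, ← h2]; exact (hp' x y hx hy).1 h3)

theorem Co.comap {S T : Type} [Semigroup S] [Nonempty S] [Semigroup T] {zer : T → Prop}
    (h : Co V zer) (j : S →ₙ* T) (hj : Injective j) : Co V fun a => zer (j a) := by
  obtain ⟨G, a, b, g, p, hG, h1, h2, h3⟩ := h
  have ha : ∀ x, a (j (invFun (a ∘ j) (a (j x)))) = a (j x) := fun x =>
    invFun_eq (f := a ∘ j) ⟨x, rfl⟩
  have hb : ∀ x, b (j (invFun (b ∘ j) (b (j x)))) = b (j x) := fun x =>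
    invFun_eq (f := b ∘ j) ⟨x, rfl⟩
  refine ⟨G, fun x => invFun (a ∘ j) (a (j x)), fun x => invFun (b ∘ j) (b (j x)),
    fun x => g (j x), fun u v => p (b (j u)) (a (j v)), hG, fun x y hxy => ?_,
    fun x y hx hy h4 h5 h6 => hj (h2 _ _ hx hy ?_ ?_ h6), fun x y x' y' hx hy hx' hy' h4 h5 => ?_⟩
  · simp only [map_mul] at hxy ⊢
    obtain ⟨h4, h5, h6⟩ := h1 _ _ hxy
    rw [h4, h5, h6, ha, hb]
    exact ⟨rfl, rfl, rfl⟩
  · rw [← ha, ← ha y]; exact congrArg (fun u => a (j u)) h4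
  · rw [← hb, ← hb y]; exact congrArg (fun u => b (j u)) h5
  · simp only [map_mul]
    refine h3 _ _ _ _ hx hy hx' hy' ?_ ?_
    · rw [← hb, ← hb x']; exact congrArg (fun u => b (j u)) h4
    · rw [← ha, ← ha y']; exact congrArg (fun u => a (j u)) h5

theorem Co.sz (hV : PsV V) {M : Type} [Semigroup M] [Finite M] {zer : M → Prop} (h : Co V zer)
    (h4 : ∀ a b, zer a → zer b → a = b) (h5 : ∀ a b, zer a → zer (a * b) ∧ zer (b * a)) :
    SZ V M := by
  classical
  obtain ⟨G, a, b, g, p, hG, h1, h2, h3⟩ := h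
  let Γ : Gr M := (fun _ => True, fun u v => ∃ x y, ¬zer (x * y) ∧ b x = u ∧ a y = v)
  refine (sz_RS hV hG Γ p).comap ⟨fun x => if zer x then none else some (a x, g x, b x),
    fun x y => ?_⟩ fun x y hxy => ?_
  · by_cases hx : zer x
    · rw [if_pos (h5 x y hx).1, rs_none _ _ (Or.inl (if_pos hx))]
    by_cases hy : zer y
    · rw [if_pos (h5 y x hy).2, rs_none _ _ (Or.inr (if_pos hy))]
    by_cases hxy : zer (x * y)
    · rw [if_pos hxy, rs_mul' (if_neg hx) (if_neg hy)]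
      rintro ⟨x', y', h6, h7, h8⟩
      exact h6 (h3 x y x' y' hx hy (fun h => h6 (h5 _ _ h).1) (fun h => h6 (h5 _ _ h).2) h7.symm
        h8.symm hxy)
    · obtain ⟨h6, h7, h8⟩ := h1 x y hxy
      rw [if_neg hxy, rs_mul (Γ := Γ) (if_neg hx) (if_neg hy) ⟨x, y, hxy, rfl, rfl⟩, h6, h7, h8]
  · have h6 : (if zer x then none else some (a x, g x, b x)) =
        if zer y then none else some (a y, g y, b y) := hxy
    by_cases hx : zer x <;> by_cases hy : zer y
    · exact h4 _ _ hx hy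
    · simp [hx, hy] at h6
    · simp [hx, hy] at h6
    · simp only [if_neg hx, if_neg hy, Option.some.injEq, Prod.mk.injEq] at h6
      exact h2 x y hx hy h6.1 h6.2.2 h6.2.1

/-- Labels of paths determine values. -/
def Lab (V : FinGp → Prop) {S : Type} [Semigroup S] [Nonempty S] (zer : S → Prop) : Prop :=
  ∃ (G : FinGp) (c : S → S → G.carrier), V G ∧ ∀ (Y : Type) (τ : Y → S) u u',
    Path (nat zer τ) u → Path (nat zer τ) u' → sgn (fun x y => c (τ x) (τ y)) u =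
      sgn (fun x y => c (τ x) (τ y)) u' → vl τ u = vl τ u'

theorem Co.lab {S : Type} [Semigroup S] [Nonempty S] {zer : S → Prop} {n : ℕ} (h : Co V zer)
    (hN : Nice zer n) : Lab V zer := by
  obtain ⟨G, a, b, g, p, hG, h1, h2, -⟩ := h
  refine ⟨G, fun s t => p (b s) (a t) * g t, hG, fun Y τ u u' hu hu' h => ?_⟩
  have h3 : ∀ r x, Path (nat zer τ) (x :: r) → a (vl τ (x :: r)) = a (τ x) ∧
      b (vl τ (x :: r)) = b (τ (r.getLastD x)) ∧ g (vl τ (x :: r)) =
        g (τ x) * MP_99598b_lc.lab (fun x y => p (b (τ x)) (a (τ y)) * g (τ y)) x r := by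
    intro r
    induction r with
    | nil => exact fun x _ => ⟨rfl, rfl, (mul_one _).symm⟩
    | cons y r ih =>
      intro x hx
      obtain ⟨h3, h4, h5⟩ := ih y (path_cons.1 hx).2.2
      have h6 := (hN.path_iff hx.1).1 hx
      rw [vl_cons τ x (by simp)] at h6 ⊢
      obtain ⟨h7, h8, h9⟩ := h1 _ _ h6
      rw [h7, h8, h9, h3, h4, h5, MP_99598b_lc.lab, List.getLastD_cons]
      exact ⟨rfl, rfl, by simp only [mul_assoc]⟩
  obtain ⟨x0, r, rfl⟩ := List.exists_cons_of_ne_nil hu.1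
  obtain ⟨x0', r', rfl⟩ := List.exists_cons_of_ne_nil hu'.1
  simp only [sgn, Option.some.injEq, Prod.mk.injEq] at h
  obtain ⟨rfl, hl, hlast⟩ := h
  obtain ⟨h4, h5, h6⟩ := h3 r x0 hu
  obtain ⟨h4', h5', h6'⟩ := h3 r' x0 hu'
  exact h2 _ _ ((hN.path_iff hu.1).1 hu) ((hN.path_iff hu'.1).1 hu') (h4.trans h4'.symm)
    (by rw [h5, h5', hlast]) (by rw [h6, h6', hl])

theorem SZ.co {S : Type} [Semigroup S] [Nonempty S] (h : SZ V S) :
    ∃ zer : S → Prop, Co V zer ∧ ∃ B, ∀ B' ≥ B, Nice zer (ex B') := by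
  obtain ⟨T, _, _, ⟨⟨z, hz, h0, h⟩, hG⟩, f, hf⟩ := h
  exact ⟨fun a => f a = z, (co_of_zs hz h0 h hG).comap f hf, _,
    fun B' hB => (nice_of_zs hz h hB).comap f hf⟩

theorem sz_fam {I : Type} [Finite I] {S : I → Type} [∀ i, Semigroup (S i)] [∀ i, Nonempty (S i)]
    (h : ∀ i, SZ V (S i)) : ∃ (zer : ∀ i, S i → Prop) (n : ℕ),
      (∀ i, Nice (zer i) n) ∧ ∀ i, Lab V (zer i) := by
  choose zer h1 B h2 using fun i => (h i).co
  have := Fintype.ofFinite I
  have h3 := fun i => h2 i _ (Finset.le_sup (f := B) (Finset.mem_univ i))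
  exact ⟨zer, _, h3, fun i => (h1 i).lab (h3 i)⟩

end Pool.Agent.H.MP_152bd8_lc
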