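import Pool.Agent.H.MP_152bd8_lc.B

/-! Bounded witnesses for the operators HS, HP and HPS. -/

namespace Pool.Agent.H.MP_152bd8_lc

open Function Pool.Agent.H.MP_88bd66_lc Pool.Agent.H.MP_99598b_lc

variable {V : FinGp → Prop} {ω : ℕ}

/-- Number of points for the universal group. -/
def kv (ω m : ℕ) : ℕ := ((m + 1) ^ 3).factorial + ω

/-- Bound for `y` letters. -/
def bv (ω m y : ℕ) : ℕ := jj y + rr y (kv ω m) + rr y (kv ω m) ^ jj y

/-- The global bound. -/
def βv (ω m : ℕ) : ℕ := bv ω m m + bv ω m (m + 1 + ((m + 1) * (m + 1) + 1))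

theorem kv_le {K : Type} {m : ℕ} (h : Nat.card K ≤ (m + 1) ^ 3) :
    (Nat.card K).factorial + ω ≤ kv ω m :=
  Nat.add_le_add_right (Nat.factorial_le h) _

theorem card_UV {Y : Type} [Finite Y] (k : ℕ) (Γ : Gr Y) :
    Nat.card (UU Γ (gv V Y k)) ≤ rr (Nat.card Y) k := by
  refine (card_UU _ Γ).trans ?_
  have := card_GV V Y k
  rw [rr]
  gcongr <;> omega

theorem sz_UU (hV : PsV V) {Y : Type} [Finite Y] (k : ℕ) (Γ : Gr Y) : SZ V (UU Γ (gv V Y k)) :=
  (sz_RS hV (gv_mem hV Y k) Γ _).comap (MulMemClass.subtype _) Subtype.val_injective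

theorem zg_UU (hV : PsV V) {Y : Type} [Finite Y] (k : ℕ) {Γ : Gr Y} (h : Good Γ) :
    ZG V (UU Γ (gv V Y k)) :=
  ⟨zs_UU _ h, (gp_RS hV (gv_mem hV Y k) Γ _).comap (MulMemClass.subtype _) Subtype.val_injective⟩

/-- Families of path semigroups. -/
@[reducible] noncomputable def mkFV (V : FinGp → Prop) (ω : ℕ) {Y : Type} [Finite Y]
    [Nonempty Y] (m : ℕ) {b : ℕ}
    (hb : bv ω m (Nat.card Y) ≤ b) (Pr : ∀ (V : Type) [Semigroup V], Prop) (p : Gr Y → Prop)
    (hp : ∃ Γ, p Γ) (h : ∀ Γ, p Γ → Pr (UU Γ (gv V Y (kv ω m)))) : Fam b Pr where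
  J := {Γ // p Γ}
  fJ := inferInstance
  nJ := ⟨⟨_, hp.choose_spec⟩⟩
  V := fun Γ => UU Γ.1 (gv V Y (kv ω m))
  sg := inferInstance
  fin := inferInstance
  ne := inferInstance
  cJ := by
    refine (Nat.card_le_card_of_injective _ Subtype.val_injective).trans ?_
    rw [card_Gr]; unfold bv at hb; omega
  cV := fun Γ => (card_UV _ _).trans (by unfold bv at hb; omega)
  cP := by
    have := Fintype.ofFinite {Γ // p Γ}
    rw [Nat.card_pi]
    refine (Finset.prod_le_pow_card _ _ _ fun Γ _ => card_UV _ Γ.1).trans ?_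
    have h1 : (Finset.univ : Finset {Γ // p Γ}).card ≤ jj (Nat.card Y) := by
      rw [Finset.card_univ, ← Nat.card_eq_fintype_card, ← card_Gr]
      exact Nat.card_le_card_of_injective _ Subtype.val_injective
    refine (Nat.pow_le_pow_right (by unfold rr; omega) h1).trans ?_
    unfold bv at hb; omega
  pr := fun Γ => h Γ.1 Γ.2

section
variable {I Y M : Type} {S : I → Type} [∀ i, Semigroup (S i)] [∀ i, Nonempty (S i)]
  {zer : ∀ i, S i → Prop} {n : ℕ} [Semigroup M]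

theorem hs (hV : PsV V) (hω : Big V ω) [Finite M] [Nonempty M] {U : Type} [Semigroup U]
    (hU : SZ V U) (π : U →ₙ* M) (hπ : Surjective π) :
    ∃ (U' : Type) (_ : Semigroup U') (_ : Finite U'), SZ V U' ∧ Nat.card U' ≤ βv ω (Nat.card M) ∧
      ∃ π' : U' →ₙ* M, Surjective π' := by
  have : Nonempty U := hπ.nonempty
  obtain ⟨zer, h1, B, h2⟩ := hU.co
  have hN := h2 B le_rfl
  obtain ⟨G, c, hG, hL⟩ := h1.lab hN
  choose t ht using hπ
  have h3 : ∀ u v, u ≠ [] → v ≠ [] → cl (nat zer t) (gv V M (kv ω (Nat.card M))) u =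
      cl (nat zer t) (gv V M (kv ω (Nat.card M))) v → π (vl t u) = π (vl t v) := by
    intro u v hu hv h
    by_cases hp : Path (nat zer t) v
    · obtain ⟨hp', hs⟩ := path_of_cl hu hp h
      have h4 : ∀ p p', p ≠ [] → p' ≠ [] → π (vl t p) = π (vl t p') →
          ∀ q, π (vl t (p ++ q)) = π (vl t (p' ++ q)) := by
        intro p p' hp hp' h q
        by_cases hq : q = []
        · simpa [hq] using h
        · rw [vl_append _ hp hq, vl_append _ hp' hq, map_mul, map_mul, h]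
      exact keyV hV hG _ (F := fun p => π (vl t p)) (fun p => π (vl t p)) hω
        (kv_le (m := Nat.card M) ((Nat.le_succ _).trans (Nat.le_self_pow (by simp) _)))
        (fun p p' hp hp' _ _ => h4 p p' hp.1 hp'.1)
        (fun p p' hp hp' h => h4 p p' hp.1 hp'.1 (by rw [hL M t p p' hp hp' h])) hp' hp hs
    · have hp' : ¬Path (nat zer t) u := fun hp' => hp (path_of_cl hv hp' h.symm).1
      rw [hN.path_iff hv, not_not] at hp
      rw [hN.path_iff hu, not_not] at hp'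
      rw [hN.uniq _ _ hp hp']
  have h4 : ∀ s : UU (nat zer t) (gv V M (kv ω (Nat.card M))), ∃ w, w ≠ [] ∧ s.1 = cl _ _ w :=
    fun s => s.2
  choose w hw hw' using h4
  refine ⟨_, inferInstance, inferInstance, sz_UU hV _ (nat zer t),
    (card_UV _ _).trans (by unfold βv bv; omega), ⟨fun s => π (vl t (w s)), fun a b => ?_⟩,
    fun x => ⟨⟨_, [x], by simp, rfl⟩, (h3 _ [x] (hw _) (by simp) (hw' _).symm).trans (ht x)⟩⟩
  rw [← map_mul, ← vl_append t (hw a) (hw b)]
  refine h3 _ _ (hw _) (by simp [hw a]) ?_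
  rw [cl_append (hw a) (hw b), ← hw', ← hw', ← hw']
  rfl

theorem gcV (hV : PsV V) (hω : Big V ω) [Finite I] [Finite Y] [Finite M]
    (hN : ∀ i, Nice (zer i) n) (hL : ∀ i, Lab V (zer i)) (t : Y → ∀ i, S i)
    (π : (∀ i, S i) →ₙ* M) {w w' : I → List Y} (hw : ∀ i, w i ≠ []) (hw' : ∀ i, w' i ≠ [])
    (h : ∀ i, cl (nat (zer i) fun y => t y i) (gv V Y (kv ω (Nat.card M))) (w i) =
      cl (nat (zer i) fun y => t y i) (gv V Y (kv ω (Nat.card M))) (w' i))
    (h1 : ∃ s s', tv t w = s * s') (h2 : ∃ s s', tv t w' = s * s') :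
    π (tv t w) = π (tv t w') := by
  classical
  obtain ⟨s1, s1', h1⟩ := h1
  obtain ⟨s2, s2', h2⟩ := h2
  refine (mix_ind (fun v => (∀ l, v l = tv t w l ∨ v l = tv t w' l) ∧ π v = π (tv t w))
    (tv t w') (tv t w) ⟨fun _ => Or.inl rfl, rfl⟩ ?_).2.symm
  rintro i v ⟨hv, hv'⟩
  refine ⟨fun l => ?_, ?_⟩
  · by_cases hl : l = i
    · subst hl; exact Or.inr (mix_self _ _ _)
    · rw [mix_ne hl]; exact hv l
  have h3 : mix i (tv t w') v = update v i (tv t w' i) :=
    mix_ext i (by rw [mix_self, update_self]) (fun l hl => by rw [mix_ne hl, update_of_ne hl])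
  rw [h3, ← hv']
  rcases hv i with h4 | h4
  swap
  · rw [← h4, update_eq_self]
  by_cases hp : Path (nat (zer i) fun y => t y i) (w' i)
  swap
  · have hp' : ¬Path (nat (zer i) fun y => t y i) (w i) := fun hp' =>
      hp (path_of_cl (hw' i) hp' (h i).symm).1
    rw [(hN i).path_iff (hw' i), not_not] at hp
    rw [(hN i).path_iff (hw i), not_not] at hp'
    rw [show tv t w' i = v i from ((hN i).uniq _ _ hp hp').trans h4.symm, update_eq_self]
  obtain ⟨a, b, hab⟩ : ∃ a b, v = a * b := by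
    have h5 : ∀ l, ∃ a b, v l = a * b := fun l => by
      rcases hv l with h5 | h5
      · exact ⟨s1 l, s1' l, by rw [h5, h1]; rfl⟩
      · exact ⟨s2 l, s2' l, by rw [h5, h2]; rfl⟩
    choose a b h5 using h5
    exact ⟨a, b, funext h5⟩
  obtain ⟨hp', hs⟩ := path_of_cl (hw i) hp (h i)
  obtain ⟨G, c, hG, hc⟩ := hL i
  have h5 := keyV hV hG _ (F := fun p => π (update v i (vl (fun y => t y i) p)))
    (fun p => (π (update a i (vl (fun y => t y i) p)), π (update v i (vl (fun y => t y i) p)))) hω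
    (kv_le (m := Nat.card M) (by rw [Nat.card_prod]; nlinarith [Nat.zero_le (Nat.card M)]))
    (fun p p' hp hp' _ _ he q => by
      rw [Prod.mk.injEq] at he
      by_cases hq : q = []
      · simpa [hq] using he.2
      · rw [vl_append _ hp.1 hq, vl_append _ hp'.1 hq, hab, update_mul, update_mul, map_mul,
          map_mul, he.1])
    (fun p p' hp hp' he q => by
      have h5 := vl_ctx _ hp.1 hp'.1 (hc Y _ p p' hp hp' he) [] q
      rw [List.nil_append, List.nil_append] at h5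
      rw [h5]) hp' hp hs
  rw [show vl (fun y => t y i) (w i) = v i from h4.symm, update_eq_self] at h5
  exact h5.symm

theorem hpsV (hV : PsV V) (hω : Big V ω) [Finite I] [Finite M] [Nonempty M]
    (hS : ∀ i, SZ V (S i)) (π : (∀ i, S i) →ₙ* M) (hπ : Surjective π) :
    ∃ F : Fam (βv ω (Nat.card M)) (SZ V), ∃ π' : (∀ j, F.V j) →ₙ* M, Surjective π' := by
  obtain ⟨zer, n, hN, hL⟩ := sz_fam hS
  choose t ht using hπ
  let γ := gv V M (kv ω (Nat.card M))
  let T := ∀ Γ : {_Γ : Gr M // True}, UU Γ.1 γ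
  let g : I → {_Γ : Gr M // True} := fun i => ⟨nat (zer i) fun y => t y i, trivial⟩
  let φ : M → T := fun x Γ => ⟨cl Γ.1 γ [x], [x], by simp, rfl⟩
  let Γ0 : {_Γ : Gr M // True} := ⟨(fun _ => True, fun _ _ => False), trivial⟩
  have hφ : ∀ x, (φ x Γ0).1 = some (x, 1, x) := fun x => if_pos trivial
  have h1 : ∀ s : T, ∃ w : I → List M, ∀ i, w i ≠ [] ∧ (s (g i)).1 = cl (g i).1 γ (w i) :=
    fun s => ⟨fun i => (s (g i)).2.choose, fun i => (s (g i)).2.choose_spec⟩
  have h2 : ∀ s : T, ∃ w : I → List M, (∀ i, w i ≠ [] ∧ (s (g i)).1 = cl (g i).1 γ (w i)) ∧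
      (∀ x, s = φ x → π (tv t w) = x) ∧ ((∃ a b, s = a * b) → ∃ a b, tv t w = a * b) := by
    intro s
    by_cases h3 : ∃ a b, s = a * b
    · obtain ⟨a, b, rfl⟩ := h3
      obtain ⟨u, hu⟩ := h1 a
      obtain ⟨v, hv⟩ := h1 b
      refine ⟨fun i => u i ++ v i, fun i => ⟨by simp [(hu i).1], ?_⟩, fun x hx => ?_,
        fun _ => ⟨_, _, tv_append t (fun i => (hu i).1) fun i => (hv i).1⟩⟩
      · rw [cl_append (hu i).1 (hv i).1, ← (hu i).2, ← (hv i).2]; rfl
      · exfalso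
        have h4 : (a Γ0).1 * (b Γ0).1 = some (x, 1, x) := by rw [← hφ, ← hx]; rfl
        rcases h5 : (a Γ0).1 with _ | ⟨x1, g1, y1⟩
        · rw [rs_none _ _ (Or.inl h5)] at h4; cases h4
        · rcases h6 : (b Γ0).1 with _ | ⟨x2, g2, y2⟩
          · rw [rs_none _ _ (Or.inr h6)] at h4; cases h4
          · rw [rs_mul' h5 h6 not_false] at h4; cases h4
    · by_cases h4 : ∃ x, s = φ x
      · obtain ⟨x, rfl⟩ := h4
        refine ⟨fun _ => [x], fun i => ⟨by simp, rfl⟩, fun y hy => ?_, fun h => absurd h h3⟩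
        have h5 := hφ x
        rw [hy, hφ] at h5
        cases h5
        exact ht _
      · obtain ⟨w, hw⟩ := h1 s
        exact ⟨w, hw, fun x hx => absurd ⟨x, hx⟩ h4, fun h => absurd h h3⟩
  choose w hw hw1 hw2 using h2
  refine ⟨mkFV V ω (Nat.card M) (by unfold βv; omega) _ (fun _ => True) ⟨Γ0.1, trivial⟩
    (fun Γ _ => sz_UU hV _ Γ),
    ⟨fun s => π (tv t (w s)), fun a b => ?_⟩, fun x => ⟨φ x, hw1 _ x rfl⟩⟩
  have h3 := tv_append t (fun i => (hw a i).1) fun i => (hw b i).1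
  rw [← map_mul, ← h3]
  refine gcV hV hω hN hL t π (fun i => (hw _ i).1) (fun i => by simp [(hw a i).1]) (fun i => ?_)
    (hw2 _ ⟨a, b, rfl⟩) ⟨_, _, h3⟩
  rw [cl_append (hw a i).1 (hw b i).1]
  exact (hw (a * b) i).2.symm.trans (congrArg₂ (· * ·) (hw a i).2 (hw b i).2)

theorem hpV (hV : PsV V) (hω : Big V ω) [Finite I] [Nonempty I] [Finite M] [Nonempty M]
    [∀ i, Finite (S i)] (hS' : ∀ i, ZG V (S i)) (π : (∀ i, S i) →ₙ* M) (hπ : Surjective π) :
    ∃ F : Fam (βv ω (Nat.card M)) (ZG V), ∃ π' : (∀ j, F.V j) →ₙ* M, Surjective π' := by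
  classical
  choose z hz ha' hS using fun i => (hS' i).1
  have ha := ha'
  choose a ha using ha
  choose t0 ht using hπ
  have := Fintype.ofFinite I
  have hN : ∀ i, Nice (fun b => b = z i) (ex (Finset.univ.sup fun i => Nat.card (S i))) :=
    fun i => nice_of_zs (hz i) (hS i) (Finset.le_sup (f := fun i => Nat.card (S i))
      (Finset.mem_univ i))
  have hL : ∀ i, Lab V (fun b : S i => b = z i) := fun i =>
    (co_of_zs (hz i) (ha' i) (hS i) (hS' i).2).lab (hN i)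
  let t1 : Option M → ∀ i, S i := fun x => x.elim a t0
  have h1 : ∀ (x y : Option M) i, ∃ c : S i, (t1 x i ≠ z i → t1 y i ≠ z i →
      t1 x i * c * t1 y i ≠ z i) ∧ (c ≠ z i → t1 x i ≠ z i ∧ t1 y i ≠ z i) := by
    intro x y i
    by_cases h : t1 x i ≠ z i ∧ t1 y i ≠ z i
    · obtain ⟨c, d, h2⟩ := hS i _ h.1 (t1 x i)
      obtain ⟨c1, d1, h3⟩ := hS i _ h.1 c
      obtain ⟨c2, d2, h4⟩ := hS i _ h.2 d
      refine ⟨d1 * t1 x i * c2, fun _ _ h5 => h.1 ?_, fun _ => h⟩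
      have h6 : t1 x i = c1 * (t1 x i * (d1 * t1 x i * c2) * t1 y i) * d2 := by
        conv_lhs => rw [h2, h3, h4]
        simp only [mul_assoc]
      rw [h6, h5, (hz i _).2, (hz i _).1]
    · exact ⟨z i, fun h1 h2 => absurd ⟨h1, h2⟩ h, fun h1 => absurd rfl h1⟩
  choose c hc hc' using h1
  let Y := Option M ⊕ (Option M × Option M) ⊕ Unit
  let t : Y → ∀ i, S i := Sum.elim t1 (Sum.elim (fun p => c p.1 p.2) fun _ => z)
  have hY : Nat.card Y = Nat.card M + 1 + ((Nat.card M + 1) * (Nat.card M + 1) + 1) := by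
    rw [Nat.card_sum, Nat.card_sum, Nat.card_prod, Finite.card_option]
    simp
  have hg : ∀ i, Good (nat (fun b => b = z i) fun y => t y i) := by
    intro i
    refine ⟨?_, ⟨Sum.inl none, ha i⟩, Sum.inr (Sum.inr ()), fun h => h rfl⟩
    let Cn : Y → Y → Prop := fun x y =>
      ∃ l, Path (nat (fun b => b = z i) fun y => t y i) (x :: l ++ [y])
    have h2 : ∀ x y u, Cn x y → Cn y u → Cn x u := by
      rintro x y u ⟨l, hl⟩ ⟨l', hl'⟩
      exact ⟨l ++ y :: l', by simpa using path_glue hl hl'⟩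
    have h3 : ∀ x y, t1 x i ≠ z i → t1 y i ≠ z i → Cn (Sum.inl x) (Sum.inl y) := by
      intro x y hx hy
      exact ⟨[Sum.inr (Sum.inl (x, y))], ((hN i).path_iff (by simp)).2 (hc x y i hx hy)⟩
    have h4 : ∀ y, t y i ≠ z i → (∃ x, t1 x i ≠ z i ∧ Cn y (Sum.inl x)) ∧
        ∃ x, t1 x i ≠ z i ∧ Cn (Sum.inl x) y := by
      rintro (y | ⟨x, y⟩ | _) hy
      · exact ⟨⟨y, hy, h3 y y hy hy⟩, y, hy, h3 y y hy hy⟩
      · have h5 := hc' x y i hy
        have h6 := hc x y i h5.1 h5.2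
        refine ⟨⟨y, h5.2, [], ((hN i).path_iff (by simp)).2 fun h7 => h6 ?_⟩,
          x, h5.1, [], ((hN i).path_iff (by simp)).2 fun h7 => h6 ?_⟩
        · rw [mul_assoc, show c x y i * t1 y i = z i from h7, (hz i _).2]
        · rw [show t1 x i * c x y i = z i from h7, (hz i _).1]
      · exact absurd rfl hy
    intro x y hx hy
    obtain ⟨u, hu, h5⟩ := (h4 x hx).1
    obtain ⟨v, hv, h6⟩ := (h4 y hy).2
    exact h2 _ _ _ (h2 _ _ _ h5 (h3 u v hu hv)) h6
  have hpr : ∀ v : ∀ i, S i, ∃ s s', v = s * s' := by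
    intro v
    choose c d h using fun i => hS i _ (ha i) (v i)
    exact ⟨c * a, d, funext h⟩
  let γ := gv V Y (kv ω (Nat.card M))
  let T := ∀ Γ : {Γ : Gr Y // Good Γ}, UU Γ.1 γ
  let g : I → {Γ : Gr Y // Good Γ} := fun i => ⟨_, hg i⟩
  have h1 : ∀ s : T, ∃ w : I → List Y, ∀ i, w i ≠ [] ∧ (s (g i)).1 = cl (g i).1 γ (w i) :=
    fun s => ⟨fun i => (s (g i)).2.choose, fun i => (s (g i)).2.choose_spec⟩
  choose w hw using h1
  refine ⟨mkFV V ω (Y := Y) (Nat.card M) (by rw [hY]; unfold βv; omega) _ Good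
    ⟨_, hg (Classical.arbitrary I)⟩ (fun Γ h => zg_UU hV _ h),
    ⟨fun s => π (tv t (w s)), fun a b => ?_⟩, fun x => ?_⟩
  · rw [← map_mul, ← tv_append t (fun i => (hw a i).1) fun i => (hw b i).1]
    refine gcV hV hω hN hL t π (fun i => (hw _ i).1) (fun i => by simp [(hw a i).1]) (fun i => ?_)
      (hpr _) (hpr _)
    rw [cl_append (hw a i).1 (hw b i).1]
    exact (hw (a * b) i).2.symm.trans (congrArg₂ (· * ·) (hw a i).2 (hw b i).2)
  · refine ⟨fun Γ => ⟨cl Γ.1 γ [Sum.inl (some x)], _, by simp, rfl⟩, Eq.trans ?_ (ht x)⟩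
    exact gcV hV hω hN hL t π (w' := fun _ => [Sum.inl (some x)]) (fun i => (hw _ i).1) (fun i => by simp)
      (fun i => (hw _ i).2.symm) (hpr _) (hpr _)

end

end Pool.Agent.H.MP_152bd8_lc
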