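import Pool.Agent.H.MP_152bd8_lc.C
import Pool.Agent.H.MP_99598b_lc.D

/-! Bounded witnesses for the operator SHPS. -/

namespace Pool.Agent.H.MP_152bd8_lc

open Function Pool.Agent.H.MP_88bd66_lc Pool.Agent.H.MP_99598b_lc

variable {V : FinGp → Prop} {ω : ℕ}

theorem sgn_map {Y G G' : Type} [Group G] [Group G'] (f : G →* G') {γ : Y → Y → G}
    {u u' : List Y} (h : sgn γ u = sgn γ u') :
    sgn (fun a b => f (γ a b)) u = sgn (fun a b => f (γ a b)) u' := by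
  cases u <;> cases u' <;> simp only [sgn, Option.some.injEq, Prod.mk.injEq, reduceCtorEq] at h ⊢
  exact ⟨h.1, by rw [← map_lab, ← map_lab, h.2.1], h.2.2⟩

theorem prod_lab (hV : PsV V) {I Y : Type} [Finite I] {S : I → Type} [∀ i, Semigroup (S i)]
    [∀ i, Nonempty (S i)] {zer : ∀ i, S i → Prop} (hL : ∀ i, Lab V (zer i)) (t : ∀ i, Y → S i) :
    ∃ (G : FinGp) (γ : Y → Y → G.carrier), V G ∧ ∀ i u u', Path (nat (zer i) (t i)) u →
      Path (nat (zer i) (t i)) u' → sgn γ u = sgn γ u' →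
      ∀ q, vl (t i) (u ++ q) = vl (t i) (u' ++ q) := by
  choose G c hG h using hL
  refine ⟨⟨∀ i, (G i).carrier⟩, fun x y i => c i (t i x) (t i y), hV.pi _ hG,
    fun i u u' hu hu' hs q => ?_⟩
  have h1 := vl_ctx _ hu.1 hu'.1 (h i Y (t i) u u' hu hu'
    (sgn_map (Pi.evalMonoidHom (fun i => (G i).carrier) i) hs)) [] q
  rwa [List.nil_append, List.nil_append] at h1

section
variable {I M Q : Type} {S : I → Type} [∀ i, Semigroup (S i)] [∀ i, Nonempty (S i)]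
  {zer : ∀ i, S i → Prop} {n : ℕ} [Semigroup M] [Semigroup Q]
  {t : M → ∀ i, S i} {z : ∀ i, S i} {J : Set I} [Nonempty M] {π : (∀ i, S i) →ₙ* Q} {ι : M →ₙ* Q}

theorem red_sgnV (hV : PsV V) (hω : Big V ω) [Finite I] [Finite M] (hN : ∀ i, Nice (zer i) n)
    (hL : ∀ i, Lab V (zer i)) (ht : ∀ x, π (t x) = ι x)
    (hJ : ∀ i ∉ J, zer i (z i)) {Γ : Gr M} (hΓ : ∀ i ∈ J, Γ ≤ nat (zer i) fun y => t y i)
    {u v : List M} (hu : Path Γ u) (hv : Path Γ v)
    (h : sgn (gv V M (kv ω (Nat.card M))) u =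
      sgn (gv V M (kv ω (Nat.card M))) v) : π (red t z J u) = π (red t z J v) := by
  classical
  obtain ⟨G, γ, hG, hγ⟩ := prod_lab hV hL fun i y => t y i
  refine keyV hV hG γ (F := fun p => π (red t z J p))
    (fun p => ((vl id p, if p.dropLast = [] then none else some (vl id p.dropLast),
      p.getLast?) : M × Option M × Option M)) hω
    (kv_le (m := Nat.card M) (by
      rw [Nat.card_prod, Nat.card_prod, Finite.card_option]
      nlinarith [Nat.zero_le (Nat.card M)])) (fun p p' hp hp' _ _ he q => ?_)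
    (fun p p' hp hp' he q => ?_) hu hv h
  · replace hp := hp.1
    replace hp' := hp'.1
    simp only [Prod.mk.injEq] at he
    by_cases hq : q = []
    · obtain ⟨r, y, rfl⟩ := (List.eq_nil_or_concat p).resolve_left hp
      obtain ⟨r', y', rfl⟩ := (List.eq_nil_or_concat p').resolve_left hp'
      simp only [List.concat_eq_append, List.dropLast_concat, List.getLast?_concat,
        Option.some.injEq] at he
      obtain ⟨-, h1, rfl⟩ := he
      simp only [hq, List.concat_eq_append, List.append_nil]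
      by_cases h2 : r = [] <;> by_cases h3 : r' = []
      · rw [h2, h3]
      · simp [h2, h3] at h1
      · simp [h2, h3] at h1
      · simp only [if_neg h2, if_neg h3, Option.some.injEq] at h1
        rw [red_right hN hJ h2 (by simp), red_right hN hJ h3 (by simp), map_mul, map_mul,
          pi_vl ht h2, pi_vl ht h3, h1]
    · show π (red t z J (p ++ q)) = π (red t z J (p' ++ q))
      rw [red_right hN hJ hp hq, red_right hN hJ hp' hq, map_mul, map_mul, pi_vl ht hp,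
        pi_vl ht hp', he.1]
  · show π (red t z J _) = π (red t z J _)
    congr 1
    funext i
    by_cases hi : i ∈ J
    · simp only [red, if_pos hi]
      rw [vl_apply t (by simp [hp.1]), vl_apply t (by simp [hp'.1])]
      exact hγ i p p' (hp.mono (hΓ i hi)) (hp'.mono (hΓ i hi)) he q
    · simp only [red, if_neg hi]

theorem claimV (hV : PsV V) (hω : Big V ω) [Finite I] [Finite M] (hN : ∀ i, Nice (zer i) n)
    (hL : ∀ i, Lab V (zer i)) (ht : ∀ x, π (t x) = ι x)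
    (hz : ∀ i a, zer i a → zer i (z i)) {u : List M} (hu : u ≠ []) :
    ∃ J : Set I, (∀ i, i ∈ J ↔ Gs (gv V M (kv ω (Nat.card M))) u ≤
        nat (zer i) fun y => t y i) ∧ π (red t z J u) = ι (vl id u) ∧
      ∀ w ∈ Os (gv V M (kv ω (Nat.card M))) u, π (red t z J w) = π (red t z J u) := by
  classical
  set γ := gv V M (kv ω (Nat.card M)) with hγ
  obtain ⟨J, -, hJ⟩ := Finite.exists_le_minimal (p := fun J : Set I =>
    (∀ i, (Gs γ u ≤ nat (zer i) fun y => t y i) → i ∈ J) ∧ (∀ i ∉ J, zer i (z i)) ∧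
      π (red t z J u) = ι (vl id u)) (a := Set.univ)
    ⟨fun _ _ => trivial, fun i hi => absurd trivial hi, by
      rw [← pi_vl ht hu]; congr 1; funext i; exact if_pos trivial⟩
  let Γ : Gr M := (fun x => (Gs γ u).1 x ∧ ∀ i ∈ J, ¬zer i (t x i),
    fun x y => (Gs γ u).2 x y ∧ ∀ i ∈ J, ¬zer i (t x i * t y i))
  have hΓ : Γ ≤ Gs γ u := ⟨fun _ h => h.1, fun _ _ h => h.1⟩
  have hΓ' : ∀ i ∈ J, Γ ≤ nat (zer i) fun y => t y i :=
    fun i hi => ⟨fun _ h => h.2 i hi, fun _ _ h => h.2 i hi⟩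
  have hc := closed_s (γ := γ) hu
  have h1 : Closed γ Γ {w | w ∈ Os γ u ∧ ∀ J' ⊆ J, (∀ i ∉ J', zer i (z i)) →
      π (red t z J' w) = π (red t z J' u)} := by
    rintro w ⟨hw, hw'⟩
    have pw := (hc w hw).1
    have h2 : ∀ i ∈ J, Path (nat (zer i) fun y => t y i) w := by
      intro i hi
      by_contra h3
      have h4 := h3
      rw [(hN i).path_iff pw.1, not_not] at h4
      have h5 : ∀ l ∉ J \ {i}, zer l (z l) := by
        intro l hl
        by_cases h6 : l = i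
        · subst h6; exact hz _ _ h4
        · exact hJ.1.2.1 l fun h7 => hl ⟨h7, h6⟩
      have h6 : red t z (J \ {i}) w = red t z J w := by
        funext l
        by_cases h6 : l = i
        · subst h6
          rw [red, red, if_neg (by simp), if_pos hi, vl_apply t pw.1]
          exact (hN l).uniq _ _ (hz _ _ h4) h4
        · simp [red, h6]
      have h7 := hJ.2 (y := J \ {i}) ⟨fun l hl => ⟨hJ.1.1 l hl, fun h8 => h3 (by
          rw [Set.mem_singleton_iff] at h8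
          subst h8
          exact pw.mono hl)⟩, h5, by
        rw [← hw' _ Set.diff_subset h5, h6, hw' J le_rfl hJ.1.2.1, hJ.1.2.2]⟩ Set.diff_subset
      exact (h7 hi).2 rfl
    have h3 : Path Γ w := path_all (ι := Option J)
      (Δ := fun o => o.elim (Gs γ u) fun i => nat (zer i) fun y => t y i) pw.1
      (fun x hx => ⟨hx none, fun i hi => hx (some ⟨i, hi⟩)⟩)
      (fun x y hx => ⟨hx none, fun i hi => hx (some ⟨i, hi⟩)⟩)
      (fun o => by
        cases o with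
        | none => exact pw
        | some i => exact h2 i i.2)
    exact ⟨h3, fun v hv hs => ⟨(hc w hw).2.1 v (hv.mono hΓ) hs, fun J' h4 h5 =>
      (red_sgnV hV hω hN hL ht h5 (fun i hi => hΓ' i (h4 hi)) hv h3 hs).trans (hw' J' h4 h5)⟩,
      fun v hv => ⟨(hc w hw).2.2 v hv, fun J' h4 h5 =>
        (red_mv hN ht h5 hv).trans (hw' J' h4 h5)⟩⟩
  have h2 : u ∈ {w | w ∈ Os γ u ∧ ∀ J' ⊆ J, (∀ i ∉ J', zer i (z i)) →
      π (red t z J' w) = π (red t z J' u)} := ⟨fun _ _ _ h => h, fun _ _ _ => rfl⟩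
  exact ⟨J, fun i => ⟨fun hi => (Gs_le h1 h2).trans (hΓ' i hi), hJ.1.1 i⟩, hJ.1.2.2,
    fun w hw => (hw _ _ h1 h2).2 J le_rfl hJ.1.2.1⟩

theorem val_eqV (hV : PsV V) (hω : Big V ω) [Finite I] [Finite M] (hN : ∀ i, Nice (zer i) n)
    (hL : ∀ i, Lab V (zer i)) (ht : ∀ x, π (t x) = ι x)
    (hι : Injective ι) {u v : List M} (hu : u ≠ []) (hv : v ≠ [])
    (h : ∀ Γ Ω, Closed (gv V M (kv ω (Nat.card M))) Γ Ω → (u ∈ Ω ↔ v ∈ Ω)) :
    vl id u = vl id v := by
  classical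
  have h1 : ∀ i, ∃ b : S i, ∀ a, zer i a → zer i b := fun i => by
    by_cases h1 : ∃ a, zer i a
    · exact ⟨_, fun _ _ => h1.choose_spec⟩
    · exact ⟨Classical.arbitrary _, fun a ha => absurd ⟨a, ha⟩ h1⟩
  choose z hz using h1
  obtain ⟨J, h1, h2, h3⟩ := claimV hV hω hN hL ht hz hu
  obtain ⟨J', h1', h2', -⟩ := claimV hV hω hN hL ht hz hv
  have h4 : Gs (gv V M (kv ω (Nat.card M))) u = Gs _ v :=
    le_antisymm (Gs_le (closed_s hv) ((h _ _ (closed_s hv)).2 fun _ _ _ h => h))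
      (Gs_le (closed_s hu) ((h _ _ (closed_s hu)).1 fun _ _ _ h => h))
  have h5 : J = J' := Set.ext fun i => by rw [h1, h1', h4]
  subst h5
  exact hι (by rw [← h2, ← h2', h3 v fun Γ Ω hc hu' => (h Γ Ω hc).1 hu'])

end

theorem shpsV (hV : PsV V) (hω : Big V ω) {I M Q : Type} {S : I → Type} [∀ i, Semigroup (S i)]
    [∀ i, Nonempty (S i)] [Semigroup M] [Semigroup Q] [Finite I] [Finite M]
    [Nonempty M] (hS : ∀ i, SZ V (S i)) (π : (∀ i, S i) →ₙ* Q) (hπ : Surjective π)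
    (ι : M →ₙ* Q) (hι : Injective ι) :
    ∃ F : Fam (βv ω (Nat.card M)) (SZ V), ∃ (Q' : Type) (_ : Semigroup Q')
      (π' : (∀ j, F.V j) →ₙ* Q') (ι' : M →ₙ* Q'), Surjective π' ∧ Injective ι' := by
  obtain ⟨zer, n, hN, hL⟩ := sz_fam hS
  choose t ht using fun x => hπ (ι x)
  let γ := gv V M (kv ω (Nat.card M))
  let T := ∀ Γ : {_Γ : Gr M // True}, UU Γ.1 γ
  let φ : ∀ u : List M, u ≠ [] → T := fun u hu Γ => ⟨cl Γ.1 γ u, u, hu, rfl⟩
  let Sim : T → T → Prop := fun a b => ∀ Γ Ω, Closed γ Γ Ω →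
    ((∃ u ∈ Ω, (a ⟨Γ, trivial⟩).1 = cl Γ γ u) ↔ ∃ u ∈ Ω, (b ⟨Γ, trivial⟩).1 = cl Γ γ u)
  have h1 : ∀ Γ Ω, Closed γ Γ Ω → ∀ w, w ≠ [] → ((∃ u ∈ Ω, cl Γ γ w = cl Γ γ u) ↔ w ∈ Ω) := by
    intro Γ Ω hc w hw
    refine ⟨?_, fun h => ⟨w, h, rfl⟩⟩
    rintro ⟨u, hu, h⟩
    obtain ⟨h2, h3⟩ := path_of_cl hw (hc u hu).1 h
    exact (hc u hu).2.1 w h2 h3
  let Inv : T → M → Prop := fun a m => ∃ u hu, vl id u = m ∧ Sim a (φ u hu)
  have h2 : ∀ u hu m, Inv (φ u hu) m ↔ vl id u = m := by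
    intro u hu m
    refine ⟨?_, fun h => ⟨u, hu, h, fun _ _ _ => Iff.rfl⟩⟩
    rintro ⟨v, hv, rfl, h⟩
    exact val_eqV hV hω hN hL ht hι hu hv fun Γ Ω hc =>
      (h1 Γ Ω hc u hu).symm.trans ((h Γ Ω hc).trans (h1 Γ Ω hc v hv))
  have h3 : ∀ (c d : Option T) Γ, ∃ p q : List M, (c ≠ none → p ≠ []) ∧ (d ≠ none → q ≠ []) ∧
      ∀ u hu, (ctx c d (φ u hu) Γ).1 = cl Γ.1 γ (p ++ u ++ q) := by
    intro c d Γ
    rcases c with _ | c <;> rcases d with _ | d
    · exact ⟨[], [], by simp, by simp, fun u hu => by simp [ctx, φ]⟩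
    · obtain ⟨q, hq, h⟩ := (d Γ).2
      exact ⟨[], q, by simp, fun _ => hq, fun u hu => by
        rw [List.nil_append, cl_append hu hq, ← h]; rfl⟩
    · obtain ⟨p, hp, h⟩ := (c Γ).2
      exact ⟨p, [], fun _ => hp, by simp, fun u hu => by
        rw [List.append_nil, cl_append hp hu, ← h]; rfl⟩
    · obtain ⟨p, hp, h⟩ := (c Γ).2
      obtain ⟨q, hq, h'⟩ := (d Γ).2
      exact ⟨p, q, fun _ => hp, fun _ => hq, fun u hu => by
        rw [cl_append (by simp [hp]) hq, cl_append hp hu, ← h, ← h']; rfl⟩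
  have h4 : ∀ x y : M, synt Inv (φ [x * y] (by simp)) (φ [x, y] (by simp)) := by
    intro x y c d m
    by_cases hcd : c = none ∧ d = none
    · rw [hcd.1, hcd.2]
      exact (h2 [x * y] (by simp) m).trans (h2 [x, y] (by simp) m).symm
    have h5 : Sim (ctx c d (φ [x * y] (by simp))) (ctx c d (φ [x, y] (by simp))) := by
      intro Γ Ω hc
      obtain ⟨p, q, hp, hq, h⟩ := h3 c d ⟨Γ, trivial⟩
      have hpq : p ≠ [] ∨ q ≠ [] := (not_and_or.1 hcd).imp hp hq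
      rw [h [x * y] (by simp), h [x, y] (by simp), h1 Γ Ω hc (p ++ [x * y] ++ q) (by simp),
        h1 Γ Ω hc (p ++ [x, y] ++ q) (by simp)]
      exact ⟨fun h6 => (hc _ h6).2.2 _ ⟨p, q, x, y, hpq, Or.inr ⟨rfl, rfl⟩⟩,
        fun h6 => (hc _ h6).2.2 _ ⟨p, q, x, y, hpq, Or.inl ⟨rfl, rfl⟩⟩⟩
    exact ⟨fun ⟨u, hu, h6, h7⟩ => ⟨u, hu, h6, fun Γ Ω hc => (h5 Γ Ω hc).symm.trans (h7 Γ Ω hc)⟩,
      fun ⟨u, hu, h6, h7⟩ => ⟨u, hu, h6, fun Γ Ω hc => (h5 Γ Ω hc).trans (h7 Γ Ω hc)⟩⟩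
  refine ⟨mkFV V ω (Y := M) (Nat.card M) (by unfold βv; omega) _ (fun _ => True) ⟨⊤, trivial⟩
    (fun Γ _ => sz_UU hV _ Γ), (synt Inv).Quotient, inferInstance,
    ⟨fun a => (a : (synt Inv).Quotient), fun _ _ => rfl⟩,
    ⟨fun x => (φ [x] (by simp) : (synt Inv).Quotient), fun x y => ?_⟩,
    fun a => Quotient.exists_rep a, fun x y h => ?_⟩
  · exact (Con.eq _).2 (h4 x y)
  · exact ((h2 [y] (by simp) x).1 ((((Con.eq _).1 h) none none x).1
      ((h2 [x] (by simp) x).2 rfl))).symm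

end Pool.Agent.H.MP_152bd8_lc
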