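import Pool.Agent.H.MP_152bd8_lc.D

/-! Bounded witnesses for the operator HSP. -/

namespace Pool.Agent.H.MP_152bd8_lc

open Function Pool.Agent.H.MP_88bd66_lc Pool.Agent.H.MP_99598b_lc

variable {V : FinGp → Prop} {ω : ℕ}

section
variable {Y : Type} {Γ : Gr Y}

theorem Wk.last {x y : Y} {r : List Y} (h : Wk Γ x r y) : ∃ p, x :: r = p ++ [y] := by
  induction r generalizing x with
  | nil => exact ⟨[], by rw [h.2]; rfl⟩
  | cons a r ih =>
    obtain ⟨p, hp⟩ := ih h.2.2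
    exact ⟨x :: p, by rw [hp]; rfl⟩

theorem Wk.rep {x : Y} {c : List Y} (h : Wk Γ x c x) (n : ℕ) :
    Wk Γ x (List.replicate n c).flatten x := by
  induction n with
  | zero => exact ⟨h.left, rfl⟩
  | succ n ih => exact h.app ih

theorem Wk.cross {x y : Y} {r : List Y} (h : Wk Γ x r y) {A : Y → Prop} (hx : A x) (hy : ¬A y) :
    ∃ p s t q, x :: r = p ++ s :: t :: q ∧ A s ∧ ¬A t ∧ Γ.2 s t := by
  induction r generalizing x with
  | nil => exact absurd (h.2 ▸ hx) hy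
  | cons a r ih =>
    by_cases ha : A a
    · obtain ⟨p, s, t, q, h1, h2⟩ := ih h.2.2 ha
      exact ⟨x :: p, s, t, q, by rw [h1]; rfl, h2⟩
    · exact ⟨[], x, a, r, rfl, hx, ha, h.2.1⟩

theorem exists_cover [Finite Y] (Γ : Gr Y) (x : Y) : ∃ c, Γ.1 x → Wk Γ x c x ∧
    ∀ a b, (∃ r, Wk Γ x r a) → Γ.2 a b → (∃ r, Wk Γ b r x) → ∃ p q, x :: c = p ++ a :: b :: q := by
  by_cases hx : Γ.1 x
  swap
  · exact ⟨[], fun h => absurd h hx⟩
  have h1 : ∀ L : List (Y × Y), ∃ c, Wk Γ x c x ∧ ∀ e ∈ L, (∃ r, Wk Γ x r e.1) → Γ.2 e.1 e.2 →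
      (∃ r, Wk Γ e.2 r x) → ∃ p q, x :: c = p ++ e.1 :: e.2 :: q := by
    intro L
    induction L with
    | nil => exact ⟨[], ⟨hx, rfl⟩, by simp⟩
    | cons e L ih =>
      obtain ⟨c, hc, h⟩ := ih
      by_cases he : (∃ r, Wk Γ x r e.1) ∧ Γ.2 e.1 e.2 ∧ ∃ r, Wk Γ e.2 r x
      · obtain ⟨⟨r, hr⟩, h2, r', hr'⟩ := he
        refine ⟨c ++ r ++ e.2 :: r', (hc.app hr).app ⟨hr.right, h2, hr'⟩, fun e' he' h3 h4 h5 => ?_⟩
        rcases List.mem_cons.1 he' with rfl | he'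
        · obtain ⟨p, hp⟩ := (hc.app hr).last
          exact ⟨p, r', by rw [← List.cons_append, hp]; simp⟩
        · obtain ⟨p, q, hp⟩ := h e' he' h3 h4 h5
          exact ⟨p, q ++ r ++ e.2 :: r', by rw [← List.cons_append, ← List.cons_append, hp]; simp⟩
      · refine ⟨c, hc, fun e' he' h3 h4 h5 => ?_⟩
        rcases List.mem_cons.1 he' with rfl | he'
        · exact absurd ⟨h3, h4, h5⟩ he
        · exact h e' he' h3 h4 h5
  have := Fintype.ofFinite (Y × Y)
  obtain ⟨c, hc, h⟩ := h1 Finset.univ.toList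
  exact ⟨c, fun _ => ⟨hc, fun a b => h (a, b) (by simp)⟩⟩

/-- The graph of a sequence. -/
def sg (x : ℕ → Y) (N : ℕ) : Gr Y :=
  (fun a => ∃ j ≤ N, x j = a, fun a b => ∃ j < N, x j = a ∧ x (j + 1) = b)

theorem sg_reach (x : ℕ → Y) {N i j : ℕ} (h : i ≤ j) (hj : j ≤ N) :
    ∃ r, Wk (sg x N) (x i) r (x j) := by
  induction j, h using Nat.le_induction with
  | base => exact ⟨[], ⟨i, hj, rfl⟩, rfl⟩
  | succ j h ih =>
    obtain ⟨r, hr⟩ := ih (by omega)
    exact ⟨r ++ [x (j + 1)], hr.app ⟨hr.right, ⟨j, hj, rfl, rfl⟩, ⟨_, hj, rfl⟩, rfl⟩⟩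

theorem sg_cover [Finite Y] (x : ℕ → Y) (N n : ℕ) : ∃ c : Y → List Y,
    (∀ y, (sg x N).1 y → Wk (sg x N) y (c y) y) ∧ ∀ r (Δ : Y → Y → Prop),
      Wk (sg x N) (x 0) r (x N) →
      ((x 0 :: r).flatMap fun y => y :: (List.replicate (n + 1) (c y)).flatten).IsChain Δ →
      ∀ j < N, Δ (x j) (x (j + 1)) := by
  choose c hc using exists_cover (sg x N)
  refine ⟨c, fun y hy => (hc y hy).1, fun r Δ hr h => ?_⟩
  rw [List.isChain_iff_forall_rel_of_append_cons_cons] at h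
  have hl : ∀ y ∈ x 0 :: r, (sg x N).1 y := (wk_iff.1 hr).1.2.1
  have hB : ∀ j < N, (¬∃ l, Wk (sg x N) (x (j + 1)) l (x j)) →
      ∃ p q, x 0 :: r = p ++ x j :: x (j + 1) :: q := by
    intro j hj h1
    have h2 : ∀ i, j < i → i ≤ N → ¬∃ l ≤ j, x l = x i := by
      rintro i h2 h3 ⟨l, h4, h5⟩
      obtain ⟨r1, hr1⟩ := sg_reach x (show j + 1 ≤ i from h2) h3
      obtain ⟨r2, hr2⟩ := sg_reach x h4 hj.le
      exact h1 ⟨_, hr1.app (h5 ▸ hr2)⟩
    obtain ⟨p, s, t, q, h3, h4, h5, l, h6, rfl, rfl⟩ := hr.cross (A := fun y => ∃ l ≤ j, x l = y)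
      ⟨0, Nat.zero_le _, rfl⟩ (h2 N hj le_rfl)
    obtain rfl : l = j := by
      rcases lt_trichotomy l j with h7 | h7 | h7
      · exact absurd ⟨l + 1, h7, rfl⟩ h5
      · exact h7
      · exact absurd h4 (h2 l h7 h6.le)
    exact ⟨p, q, h3⟩
  have hV : ∀ j ≤ N, ∃ y ∈ x 0 :: r, (∃ l, Wk (sg x N) y l (x j)) ∧
      ∃ l, Wk (sg x N) (x j) l y := by
    intro j
    induction j with
    | zero => exact fun _ => ⟨x 0, by simp, ⟨[], hr.left, rfl⟩, [], hr.left, rfl⟩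
    | succ j ih =>
      intro hj
      by_cases h1 : ∃ l, Wk (sg x N) (x (j + 1)) l (x j)
      · obtain ⟨y, hy, ⟨l1, h2⟩, l2, h3⟩ := ih (by omega)
        obtain ⟨l3, h4⟩ := sg_reach x (Nat.le_succ j) hj
        exact ⟨y, hy, ⟨_, h2.app h4⟩, _, h1.choose_spec.app h3⟩
      · obtain ⟨p, q, h2⟩ := hB j hj h1
        have h3 : (sg x N).1 (x (j + 1)) := ⟨_, hj, rfl⟩
        exact ⟨x (j + 1), by rw [h2]; simp, ⟨[], h3, rfl⟩, [], h3, rfl⟩
  intro j hj
  by_cases h1 : ∃ l, Wk (sg x N) (x (j + 1)) l (x j)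
  · obtain ⟨y, hy, h2, l, h3⟩ := hV j hj.le
    obtain ⟨p, q, h4⟩ := (hc y (hl y hy)).2 _ _ h2 ⟨j, hj, rfl, rfl⟩ ⟨_, h1.choose_spec.app h3⟩
    obtain ⟨p', q', h5⟩ := List.append_of_mem hy
    refine h (l₁ := p'.flatMap (fun y => y :: (List.replicate (n + 1) (c y)).flatten) ++ p) 
      (l₂ := q ++ (List.replicate n (c y)).flatten ++ q'.flatMap fun y => y :: (List.replicate (n + 1) (c y)).flatten) ?_
    rw [h5, List.flatMap_append, List.flatMap_cons, List.replicate_succ, List.flatten_cons,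
      ← List.cons_append, h4]
    simp only [List.append_assoc, List.cons_append]
  · obtain ⟨p, q, h2⟩ := hB j hj h1
    obtain ⟨p', h3⟩ := ((hc (x j) ⟨j, hj.le, rfl⟩).1.rep (n + 1)).last
    refine h (l₁ := p.flatMap (fun y => y :: (List.replicate (n + 1) (c y)).flatten) ++ p')
      (l₂ := (List.replicate (n + 1) (c (x (j + 1)))).flatten ++
      q.flatMap fun y => y :: (List.replicate (n + 1) (c y)).flatten) ?_
    rw [h2, List.flatMap_append, List.flatMap_cons, List.flatMap_cons, h3]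
    simp only [List.append_assoc, List.cons_append, List.nil_append]

theorem path_swap {p p' q : List Y} (hp : Path Γ p) (hp' : Path Γ p')
    (h : p.getLast? = p'.getLast?) (hq : Path Γ (p ++ q)) : Path Γ (p' ++ q) := by
  refine ⟨by simp [hp'.1], fun y hy => ?_, ?_⟩
  · rcases List.mem_append.1 hy with hy | hy
    · exact hp'.2.1 y hy
    · exact hq.2.1 y (List.mem_append_right _ hy)
  · have h1 := List.isChain_append.1 hq.2.2
    exact List.isChain_append.2 ⟨hp'.2.2, h1.2.1, h ▸ h1.2.2⟩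

theorem vl_flatMap {S : Type} [Semigroup S] [Nonempty S] (τ : Y → S) (s : Y → List Y)
    {w : List Y} (hw : w ≠ []) (h : ∀ y ∈ w, vl τ (y :: s y) = τ y) :
    vl τ (w.flatMap fun y => y :: s y) = vl τ w := by
  induction w with
  | nil => rfl
  | cons y w ih =>
    by_cases h1 : w = []
    · simpa [h1] using h y (by simp)
    · rw [List.flatMap_cons, vl_append τ (by simp) (by cases w <;> simp at h1 ⊢),
        ih h1 fun a ha => h a (by simp [ha]), h y (by simp), vl_cons τ y h1]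

theorem sgn_ends {G : Type} [Group G] {γ : Y → Y → G} {u u' : List Y} (h : sgn γ u = sgn γ u') :
    u.head? = u'.head? ∧ u.getLast? = u'.getLast? := by
  cases u <;> cases u' <;> simp only [sgn, Option.some.injEq, Prod.mk.injEq, reduceCtorEq] at h ⊢
  · exact ⟨trivial, trivial⟩
  · simpa [List.getLast?_cons, List.getLastD_eq_getLast?] using And.intro h.1 h.2.2

end

theorem hsp_id (hV : PsV V) (hω : Big V ω) {I M U : Type} {S : I → Type} [∀ i, Semigroup (S i)]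
    [∀ i, Nonempty (S i)] [Semigroup M] [Semigroup U] [Nonempty U] [Finite I] [Finite M]
    (hS : ∀ i, SZ V (S i)) (ι : U →ₙ* ∀ i, S i) (hι : Injective ι) (π : U →ₙ* M) (t : M → U)
    {u u' : List M} (hu : u ≠ []) (hu' : u' ≠ [])
    (h : ∀ Γ, cl Γ (gv V M (kv ω (Nat.card M))) u = cl Γ (gv V M (kv ω (Nat.card M))) u') :
    π (vl t u) = π (vl t u') := by
  classical
  obtain ⟨zer, n, hN, hL⟩ := sz_fam hS
  obtain ⟨G, γ, hG, hγ⟩ := prod_lab hV hL fun i y => ι (t y) i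
  obtain ⟨x0, r0, rfl⟩ := List.exists_cons_of_ne_nil hu
  let x : ℕ → M := fun j => (x0 :: r0).getD j x0
  have hx : ∀ j (hj : j < (x0 :: r0).length), x j = (x0 :: r0)[j] := fun j hj =>
    List.getD_eq_getElem _ _ hj
  obtain ⟨c, hc, hc'⟩ := sg_cover x r0.length n
  set Γ := sg x r0.length
  have hxl : (x0 :: r0).getLast? = some (x r0.length) := by
    rw [hx _ (by simp), List.getLast?_eq_getElem?]
    simp
  have pu : Path Γ (x0 :: r0) := by
    refine ⟨hu, fun y hy => ?_, List.isChain_iff_getElem.2 fun j hj => ?_⟩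
    · obtain ⟨j, hj, rfl⟩ := List.getElem_of_mem hy
      exact ⟨j, by simpa [Nat.lt_succ_iff] using hj, hx j hj⟩
    · exact ⟨j, by simpa using hj, hx j _, hx _ hj⟩
  have hle : ∀ Δ, Path Δ (x0 :: r0) → Γ ≤ Δ := by
    intro Δ hΔ
    constructor
    · rintro _ ⟨j, hj, rfl⟩
      rw [hx j (by simp; omega)]
      exact hΔ.2.1 _ (List.getElem_mem _)
    · rintro _ _ ⟨j, hj, rfl, rfl⟩
      rw [hx j (by simp; omega), hx (j + 1) (by simpa using hj)]
      exact List.isChain_iff_getElem.1 hΔ.2.2 j _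
  let σ : List M → List M := fun w =>
    w.flatMap fun y => y :: (List.replicate (n + 1) (c y)).flatten
  have hσ : ∀ w, w ≠ [] → σ w ≠ [] := fun w hw => by cases w <;> simp [σ] at hw ⊢
  have hι' : ∀ w, w ≠ [] → ∀ i, ι (vl t w) i = vl (fun y => ι (t y) i) w := fun w hw i =>
    map_vl t ((Pi.evalMulHom S i).comp ι) hw
  let C : List M → Prop := fun w =>
    Path Γ w ∧ w.head? = some x0 ∧ w.getLast? = some (x r0.length)
  have h1 : ∀ w i, Path Γ w → Path (nat (zer i) fun y => ι (t y) i) (x0 :: r0) →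
      vl (fun y => ι (t y) i) (σ w) = vl (fun y => ι (t y) i) w := by
    intro w i hw hi
    refine vl_flatMap _ _ hw.1 fun y hy => ?_
    have h1 := hc y (hw.2.1 y hy)
    by_cases h2 : c y = []
    · simp [h2]
    · refine (hN i).cyc ((wk_iff.1 h1).1.mono (hle _ hi)) ?_
      obtain ⟨p, hp⟩ := h1.last
      have h3 := congrArg List.getLast? hp
      obtain ⟨a, l, hl⟩ := List.exists_cons_of_ne_nil h2
      rw [hl] at h3 ⊢
      simpa using h3
  have h2 : ∀ w i, C w → ¬Path (nat (zer i) fun y => ι (t y) i) (x0 :: r0) →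
      zer i (vl (fun y => ι (t y) i) (σ w)) := by
    rintro w i ⟨hw, h2, h3⟩ hi
    by_contra h4
    rw [← (hN i).path_iff (hσ w hw.1)] at h4
    obtain ⟨y, r, rfl⟩ := List.exists_cons_of_ne_nil hw.1
    obtain rfl : y = x0 := Option.some.inj h2
    have h5 := hc' r _ (wk_iff.2 ⟨hw, show r.getLastD y = _ by
      simpa [List.getLast?_cons, List.getLastD_eq_getLast?] using h3⟩) h4.2.2
    refine hi ⟨hu, fun a ha => ?_, List.isChain_iff_getElem.2 fun j hj => ?_⟩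
    · obtain ⟨j, hj, rfl⟩ := List.getElem_of_mem ha
      cases j with
      | zero => exact h4.2.1 y (by simp [σ])
      | succ j =>
        rw [← hx _ hj]
        exact fun h6 => h5 j (by simpa using hj) ((hN i).right _ _ h6)
    · rw [← hx j, ← hx _ hj]
      exact h5 j (by simpa using hj)
  have h3 : ∀ p p', Path Γ p → Path Γ p' → p.head? = p'.head? → p.getLast? = p'.getLast? →
      ∀ q, C (p ++ q) ↔ C (p' ++ q) := by
    intro p p' hp hp' h3 h4 q
    refine and_congr ⟨path_swap hp hp' h4, path_swap hp' hp h4.symm⟩ ?_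
    rw [List.head?_append, List.head?_append, List.getLast?_append, List.getLast?_append, h3, h4]
  have h4 : ∀ w, C w → (∀ i, Path (nat (zer i) fun y => ι (t y) i) w →
      Path (nat (zer i) fun y => ι (t y) i) (x0 :: r0)) → vl t (σ w) = vl t w := by
    intro w hw h4
    refine hι (funext fun i => ?_)
    rw [hι' _ (hσ w hw.1.1), hι' _ hw.1.1]
    by_cases hi : Path (nat (zer i) fun y => ι (t y) i) (x0 :: r0)
    · exact h1 w i hw.1 hi
    · exact (hN i).uniq _ _ (h2 w i hw hi) (not_not.1 fun h5 =>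
        hi (h4 i (((hN i).path_iff hw.1.1).2 h5)))
  obtain ⟨pu', hs⟩ := path_of_cl hu' pu (h Γ).symm
  have h5 := keyV hV hG γ (F := fun w => if C w then some (π (vl t (σ w))) else none)
    (fun w => π (vl t (σ w))) hω
    (kv_le (m := Nat.card M) ((Nat.le_succ _).trans (Nat.le_self_pow (by simp) _)))
    (fun p p' hp hp' h5 h6 h7 q => by
      refine if_congr (h3 p p' hp hp' h5 h6 q) (congrArg some ?_) rfl
      by_cases hq : q = []
      · simpa [hq] using h7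
      · have h8 : ∀ p, σ (p ++ q) = σ p ++ σ q := fun p => List.flatMap_append
        rw [h8, h8, vl_append t (hσ p hp.1) (hσ q hq), vl_append t (hσ p' hp'.1) (hσ q hq),
          map_mul, map_mul, h7])
    (fun p p' hp hp' h5 q => by
      have h6 := h3 p p' hp hp' (sgn_ends h5).1 (sgn_ends h5).2 q
      refine if_ctx_congr h6 (fun h7 => congrArg (fun a => some (π a)) ?_) fun _ => rfl
      refine hι (funext fun i => ?_)
      rw [hι' _ (hσ _ h7.1.1), hι' _ (hσ _ (h6.2 h7).1.1)]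
      by_cases hi : Path (nat (zer i) fun y => ι (t y) i) (x0 :: r0)
      · rw [h1 _ i h7.1 hi, h1 _ i (h6.2 h7).1 hi]
        exact hγ i p p' (hp.mono (hle _ hi)) (hp'.mono (hle _ hi)) h5 q
      · exact (hN i).uniq _ _ (h2 _ i (h6.2 h7) hi) (h2 _ i h7 hi)) pu pu' hs.symm
  have h6 : C (x0 :: r0) := ⟨pu, rfl, hxl⟩
  have h7 : C u' := ⟨pu', (sgn_ends hs).1, (sgn_ends hs).2.trans hxl⟩
  simp only [if_pos h6, if_pos h7, Option.some.injEq] at h5
  rw [← h4 _ h6 fun _ h => h, h5, h4 _ h7 fun i hi => (path_of_cl hu hi (h _)).1]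

theorem hspV (hV : PsV V) (hω : Big V ω) {I M U : Type} {S : I → Type} [∀ i, Semigroup (S i)]
    [∀ i, Nonempty (S i)] [Semigroup M] [Semigroup U] [Finite I] [Finite M] [Nonempty M]
    (hS : ∀ i, SZ V (S i)) (ι : U →ₙ* ∀ i, S i) (hι : Injective ι) (π : U →ₙ* M)
    (hπ : Surjective π) : ∃ (F : Fam (βv ω (Nat.card M)) (SZ V))
      (U' : Subsemigroup (∀ j, F.V j)) (π' : U' →ₙ* M), Surjective π' := by
  have : Nonempty U := hπ.nonempty
  choose t ht using hπ
  let γ := gv V M (kv ω (Nat.card M))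
  let U' : Subsemigroup (∀ Γ : {_Γ : Gr M // True}, UU Γ.1 γ) :=
    { carrier := {s | ∃ w, w ≠ [] ∧ ∀ Γ, (s Γ).1 = cl Γ.1 γ w}
      mul_mem' := by
        rintro a b ⟨u, hu, hu'⟩ ⟨v, hv, hv'⟩
        exact ⟨u ++ v, by simp [hu], fun Γ => by rw [cl_append hu hv, ← hu', ← hv']; rfl⟩ }
  have h1 : ∀ s : U', ∃ w, w ≠ [] ∧ ∀ Γ, (s.1 Γ).1 = cl Γ.1 γ w := fun s => s.2
  choose w hw hw' using h1
  refine ⟨mkFV V ω (Y := M) (Nat.card M) (by unfold βv; omega) _ (fun _ => True) ⟨⊤, trivial⟩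
    (fun Γ _ => sz_UU hV _ Γ), U', ⟨fun s => π (vl t (w s)), fun a b => ?_⟩, fun x =>
    ⟨⟨fun Γ => ⟨_, [x], by simp, rfl⟩, [x], by simp, fun _ => rfl⟩, Eq.trans ?_ (ht x)⟩⟩
  · rw [← map_mul, ← vl_append t (hw a) (hw b)]
    refine hsp_id hV hω hS ι hι π t (hw _) (by simp [hw a]) fun Γ => ?_
    rw [cl_append (hw a) (hw b), ← hw' _ ⟨Γ, trivial⟩, ← hw' _ ⟨Γ, trivial⟩, ← hw' _ ⟨Γ, trivial⟩]
    rfl
  · exact hsp_id hV hω hS ι hι π t (u' := [x]) (hw _) (by simp) fun Γ => (hw' _ ⟨Γ, trivial⟩).symm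

end Pool.Agent.H.MP_152bd8_lc
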