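import Pool.Agent.H.MP_152bd8_lc.E

/-! Images of 0-simple semigroups and of their products; the calculus of Birkhoff operators. -/

namespace Pool.Agent.H.MP_152bd8_lc

open Function Pool.Agent.H.MP_88bd66_lc Pool.Agent.H.MP_99598b_lc

variable {V : FinGp → Prop}

theorem zg_map (hV : PsV V) {T N : Type} [Semigroup T] [Finite T] [Semigroup N] (h : ZG V T)
    (f : T →ₙ* N) (hf : Surjective f) : ZG V N ∨ Subsingleton N := by
  obtain ⟨⟨z, hz, -, h1⟩, h2⟩ := h
  by_cases h3 : ∃ a, a ≠ f z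
  · refine Or.inl ⟨⟨f z, fun a => ?_, h3, fun a ha b => ?_⟩, h2.map hV f hf⟩
    · obtain ⟨a, rfl⟩ := hf a
      rw [← map_mul, ← map_mul, (hz a).1, (hz a).2]
      exact ⟨rfl, rfl⟩
    · obtain ⟨a, rfl⟩ := hf a
      obtain ⟨b, rfl⟩ := hf b
      obtain ⟨c, d, rfl⟩ := h1 a (fun h => ha (by rw [h])) b
      exact ⟨f c, f d, by simp⟩
  · push Not at h3
    exact Or.inr ⟨fun a b => (h3 a).trans (h3 b).symm⟩

theorem zs_reg {T : Type} [Semigroup T] [Finite T] (h : ZS T) (x : T) : ∃ u, x = x * u * x := by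
  obtain ⟨z, hz, -, h⟩ := h
  by_cases hx : x = z
  · exact ⟨z, by rw [hx, (hz _).2]⟩
  obtain ⟨c, d, h1⟩ := h x hx x
  obtain ⟨w, d2, h2⟩ := h x hx d
  have h3 := (nice_of_zs hz h le_rfl).reg x (w * x) (Or.inr ⟨_, rfl⟩) fun h3 => hx (by
    have h4 : x = c * (x * (w * x)) * d2 := by
      conv_lhs => rw [h1, h2]
      simp only [mul_assoc]
    rw [h4, h3, (hz _).2, (hz _).1])
  obtain ⟨u, hu⟩ := pw_right w x (ex (Nat.card T))
  exact ⟨u, by rw [mul_assoc, ← hu, h3]⟩

theorem hp_sep (hV : PsV V) {I M : Type} [Finite I] {T : I → Type} [∀ i, Semigroup (T i)]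
    [∀ i, Finite (T i)] [Semigroup M] (h : ∀ i, ZG V (T i)) (π : (∀ i, T i) →ₙ* M)
    (hπ : Surjective π) {a b : M} (hab : a ≠ b) :
    ∃ (Q : Type) (_ : Semigroup Q) (_ : Finite Q), ZG V Q ∧ ∃ f : M →ₙ* Q, f a ≠ f b := by
  classical
  have := Finite.of_surjective π hπ
  have hreg : ∀ x : M, ∃ u, x = x * u * x := fun x => by
    obtain ⟨s, rfl⟩ := hπ x
    choose u hu using fun i => zs_reg (h i).1 (s i)
    exact ⟨π u, by rw [← map_mul, ← map_mul]; exact congrArg π (funext hu)⟩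
  choose z hz _ hS using fun i => (h i).1
  let ε : (∀ i, T i) → (∀ i, T i) → ∀ i, T i := fun A s i => if A i = z i then z i else s i
  have h1 : ∀ A s t, ε A (s * t) = ε A s * t ∧ ε A (s * t) = s * ε A t := by
    intro A s t
    constructor <;> funext i <;> by_cases hi : A i = z i <;> simp [ε, hi, hz]
  let r : (∀ i, T i) → M → M := fun A x => π (ε A (surjInv hπ x))
  have h2 : ∀ A s, r A (π s) = π (ε A s) := by
    intro A s
    have h2 := surjInv_eq hπ (π s)
    have h3 : ∀ y, r A (π s) * y = π (ε A s) * y ∧ y * r A (π s) = y * π (ε A s) := by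
      intro y
      obtain ⟨t, rfl⟩ := hπ y
      simp only [r, ← map_mul]
      rw [← (h1 A _ t).1, ← (h1 A _ t).1, ← (h1 A t _).2, ← (h1 A t _).2, (h1 A _ t).2,
        (h1 A s t).2, (h1 A t _).1, (h1 A t s).1]
      simp only [map_mul, h2, and_self]
    obtain ⟨u, hu⟩ := hreg (r A (π s))
    obtain ⟨v, hv⟩ := hreg (π (ε A s))
    have h4 : π (ε A s) = r A (π s) * (v * π (ε A s)) := by rw [(h3 _).1, ← mul_assoc, ← hv]
    calc r A (π s) = r A (π s) * u * π (ε A s) := by rw [← (h3 _).2, ← hu]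
      _ = r A (π s) * u * r A (π s) * (v * π (ε A s)) := by rw [mul_assoc _ (r A _), ← h4]
      _ = _ := by rw [← hu, ← h4]
  have h3 : ∀ A x y, r A (x * y) = r A x * y ∧ r A (x * y) = x * r A y := by
    intro A x y
    obtain ⟨s, rfl⟩ := hπ x
    obtain ⟨t, rfl⟩ := hπ y
    simp only [← map_mul, h2, ← (h1 A s t).1, ← (h1 A s t).2, and_self]
  have h4 : ∀ A B x, r A (r B x) = r B (r A x) := by
    intro A B x
    obtain ⟨s, rfl⟩ := hπ x
    simp only [h2]
    congr 1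
    funext i
    by_cases hi : A i = z i <;> by_cases hi' : B i = z i <;> simp [ε, hi, hi']
  have h5 : ∀ A, r A (π A) = π A := by
    intro A
    rw [h2]
    congr 1
    funext i
    by_cases hi : A i = z i <;> simp [ε, hi]
  have h6 : ∀ A y, ∃ c d, r A y = c * π A * d := by
    intro A y
    obtain ⟨t, rfl⟩ := hπ y
    have h6 : ∀ i, ∃ c d, ε A t i = c * A i * d := fun i => by
      by_cases hi : A i = z i
      · exact ⟨z i, z i, by simp [ε, hi, hz]⟩
      · exact hS i _ hi _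
    choose c d h6 using h6
    exact ⟨π c, π d, by rw [h2, ← map_mul, ← map_mul]; exact congrArg π (funext h6)⟩
  have hz0 : ∀ x, π z * x = π z ∧ x * π z = π z := by
    intro x
    obtain ⟨s, rfl⟩ := hπ x
    rw [← map_mul, ← map_mul]
    exact ⟨congrArg π (funext fun i => (hz i _).1), congrArg π (funext fun i => (hz i _).2)⟩
  have main : ∀ A y, r A y ≠ π A → ∃ (Q : Type) (_ : Semigroup Q) (_ : Finite Q), ZG V Q ∧
      ∃ f : M →ₙ* Q, f (π A) ≠ f y := by
    intro A y hy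
    let N : M → Prop := fun x => ¬∃ c d, π A = c * r A x * d
    have hN : ∀ x y, N x → N (x * y) ∧ N (y * x) := fun x y hx =>
      ⟨fun ⟨c, d, h⟩ => hx ⟨c, y * d, by rw [h, (h3 A x y).1]; simp only [mul_assoc]⟩,
        fun ⟨c, d, h⟩ => hx ⟨c * y, d, by rw [h, (h3 A y x).2]; simp only [mul_assoc]⟩⟩
    have hN' : ∀ x y, r A x = r A y → N x → N y := fun x y h hx => by simpa only [N, ← h] using hx
    let c : Con M :=
      { r := fun x y => r A x = r A y ∨ (N x ∧ N y)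
        iseqv := ⟨fun _ => Or.inl rfl, fun h => h.imp Eq.symm And.symm, by
          rintro x y w (h | h) (h' | h')
          exacts [Or.inl (h.trans h'), Or.inr ⟨hN' _ _ h.symm h'.1, h'.2⟩,
            Or.inr ⟨h.1, hN' _ _ h' h.2⟩, Or.inr ⟨h.1, h'.2⟩]⟩
        mul' := by
          rintro x y x' y' (h | h) (h' | h')
          · exact Or.inl (by rw [(h3 A x x').1, h, ← (h3 A y x').1, (h3 A y x').2, h',
              ← (h3 A y y').2])
          · exact Or.inr ⟨(hN _ _ h'.1).2, (hN _ _ h'.2).2⟩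
          · exact Or.inr ⟨(hN _ _ h.1).1, (hN _ _ h.2).1⟩
          · exact Or.inr ⟨(hN _ _ h.1).1, (hN _ _ h.2).1⟩ }
    let f : M →ₙ* c.Quotient := ⟨fun x => (x : c.Quotient), fun _ _ => rfl⟩
    have hf : Surjective f := fun a => Quotient.exists_rep a
    have h7 : ¬N (π A) := fun h7 => by
      obtain ⟨u, hu⟩ := hreg (π A)
      exact h7 ⟨π A * u, u * π A, by rw [h5, ← hu, ← mul_assoc, ← hu]⟩
    have h8 : ∀ x, N x → N (π z) := fun x hx => (hz0 x).1 ▸ (hN x _ hx).2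
    refine ⟨c.Quotient, inferInstance, Finite.of_surjective f hf, ⟨⟨f (π z), fun x => ?_,
      ⟨f (π A), fun h9 => ?_⟩, fun x hx w => ?_⟩,
      ((Gp.pi hV fun i => (h i).2).map hV π hπ).map hV f hf⟩, f, fun h9 => ?_⟩
    · obtain ⟨x, rfl⟩ := hf x
      rw [← map_mul, ← map_mul, (hz0 x).1, (hz0 x).2]
      exact ⟨rfl, rfl⟩
    · rcases (Con.eq c).1 h9 with h10 | h10
      · obtain ⟨c, d, h11⟩ := h6 A y
        have h12 : π A = π z := by rw [← h5, h10, ← (hz0 (π z)).1, (h3 A _ _).2, (hz0 _).1, (hz0 _).1]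
        exact hy (by rw [h11, h12, (hz0 _).2, (hz0 _).1])
      · exact h7 h10.1
    · obtain ⟨x, rfl⟩ := hf x
      obtain ⟨w, rfl⟩ := hf w
      obtain ⟨c1, d1, h9⟩ : ∃ c d, π A = c * r A x * d :=
        not_not.1 fun h9 => hx ((Con.eq c).2 (Or.inr ⟨h9, h8 x h9⟩))
      obtain ⟨c2, d2, h10⟩ := h6 A w
      refine ⟨f (c2 * c1), f (d1 * d2), ?_⟩
      rw [← map_mul, ← map_mul]
      refine (Con.eq c).2 (Or.inl ?_)
      rw [(h3 A _ _).1, (h3 A _ x).2, h10, h9]
      simp only [mul_assoc]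
    · rcases (Con.eq c).1 h9 with h10 | h10
      · exact hy (h10.symm.trans (h5 A))
      · exact h7 h10.1
  obtain ⟨A, rfl⟩ := hπ a
  obtain ⟨B, rfl⟩ := hπ b
  by_cases h7 : r A (π B) = π A
  · obtain ⟨Q, _, _, h8, f, hf⟩ := main B (π A) fun h8 =>
      hab (by rw [← h7, ← h8, h4, h5, h8, ← h8])
    exact ⟨Q, _, ‹_›, h8, f, hf.symm⟩
  · exact main A (π B) h7

/-- Products over an arbitrary finite nonempty index type. -/
theorem p_of {C : Cl} {J : Type} [Finite J] [Nonempty J] (T : J → FinSg) (h : ∀ j, C (T j))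
    (N : FinSg) (ψ : N.carrier ≃* ∀ j, (T j).carrier) : P C N := by
  obtain ⟨n, hn⟩ := Nat.exists_eq_succ_of_ne_zero (Nat.card_pos (α := J)).ne'
  let σ := (Finite.equivFinOfCardEq hn).symm
  exact ⟨n, fun i => T (σ i), fun i => h _,
    ⟨ψ.trans ⟨(Equiv.piCongrLeft' (fun j => (T j).carrier) σ.symm), fun _ _ => rfl⟩⟩⟩

theorem app_cons_mono (o : Op) {l l' : List Op} {C : Cl} (h : app l C ≤ app l' C) :
    app (o :: l) C ≤ app (o :: l') C := by
  cases o
  · exact fun N ⟨T, hT, h1⟩ => ⟨T, h T hT, h1⟩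
  · exact fun N ⟨T, hT, h1⟩ => ⟨T, h T hT, h1⟩
  · exact fun N ⟨n, T, hT, h1⟩ => ⟨n, T, fun i => h _ (hT i), h1⟩
  · exact fun N ⟨n, T, hT, h1⟩ => ⟨n, T, fun i => h _ (hT i), h1⟩

theorem le_app_cons (o : Op) (l : List Op) (C : Cl) : app l C ≤ app (o :: l) C := by
  cases o
  · exact fun N hN => ⟨N, hN, MulHom.id _, surjective_id⟩
  · exact fun N hN => ⟨N, hN, MulHom.id _, injective_id⟩
  · exact fun N hN => p_of (J := Unit) (fun _ => N) (fun _ => hN) N (MulEquiv.funUnique _ _).symm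
  · exact fun N hN => ⟨1, fun _ => N, fun _ => hN, ⟨(MulEquiv.funUnique _ _).symm⟩⟩

theorem app_sub {l l' : List Op} (h : l.Sublist l') (C : Cl) : app l C ≤ app l' C := by
  induction h with
  | slnil => exact le_rfl
  | cons o _ ih => exact ih.trans (le_app_cons o _ C)
  | cons_cons o _ ih => exact app_cons_mono o ih

theorem hh (C : Cl) : H (H C) ≤ H C := fun _ ⟨_, ⟨T, hT, g, hg⟩, f, hf⟩ =>
  ⟨T, hT, f.comp g, hf.comp hg⟩

theorem ss (C : Cl) : S (S C) ≤ S C := fun _ ⟨_, ⟨T, hT, g, hg⟩, f, hf⟩ =>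
  ⟨T, hT, g.comp f, hg.comp hf⟩

theorem pp (C : Cl) : P (P C) ≤ P C := by
  rintro N ⟨n, T, hT, ⟨ψ⟩⟩
  choose k U hU φ using hT
  refine p_of (J := Σ i, Fin (k i + 1)) (fun j => U j.1 j.2) (fun j => hU _ _) N
    (ψ.trans ((MulEquiv.piCongrRight fun i => (φ i).some).trans
      ⟨(Equiv.piCurry fun i j => (U i j).carrier).symm, fun _ _ => rfl⟩))

theorem sh (C : Cl) : S (H C) ≤ H (S C) := by
  rintro N ⟨Q, ⟨T, hT, g, hg⟩, f, hf⟩
  let U : Subsemigroup (T.carrier × N.carrier) :=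
    { carrier := {a | g a.1 = f a.2}
      mul_mem' := fun {a b} ha hb => by
        show g (a.1 * b.1) = f (a.2 * b.2)
        rw [map_mul, map_mul, ha, hb] }
  have h1 : Surjective ((MulHom.snd _ _).comp (MulMemClass.subtype U)) := fun x =>
    ⟨⟨((hg (f x)).choose, x), (hg _).choose_spec⟩, rfl⟩
  have := h1.nonempty
  exact ⟨⟨U⟩, ⟨T, hT, (MulHom.fst _ _).comp (MulMemClass.subtype U), fun a b hab =>
    Subtype.ext (Prod.ext hab (hf (a.2.symm.trans ((congrArg g hab).trans b.2))))⟩, _, h1⟩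

theorem ph (C : Cl) : P (H C) ≤ H (P C) := by
  rintro N ⟨n, T, hT, ⟨ψ⟩⟩
  choose U hU f hf using hT
  exact ⟨⟨∀ i, (U i).carrier⟩, ⟨n, U, hU, ⟨MulEquiv.refl _⟩⟩,
    ψ.symm.toMulHom.comp (MulHom.pi fun i => (f i).comp (Pi.evalMulHom _ i)),
    ψ.symm.surjective.comp (Surjective.piMap hf)⟩

theorem ps (C : Cl) : P (S C) ≤ S (P C) := by
  rintro N ⟨n, T, hT, ⟨ψ⟩⟩
  choose U hU f hf using hT
  exact ⟨⟨∀ i, (U i).carrier⟩, ⟨n, U, hU, ⟨MulEquiv.refl _⟩⟩,
    (MulHom.pi fun i => (f i).comp (Pi.evalMulHom _ i)).comp ψ.toMulHom,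
    (Injective.piMap hf).comp ψ.injective⟩

open Op in
/-- Rewriting at the head of a word. -/
def rw0 : List Op → List (List Op)
  | h :: h :: l => [h :: l]
  | s :: s :: l => [s :: l]
  | p :: p :: l => [p :: l]
  | s :: h :: l => [h :: s :: l]
  | p :: h :: l => [h :: p :: l]
  | p :: s :: l => [s :: p :: l]
  | _ => []

/-- One rewriting step. -/
def rw1 : List Op → List (List Op)
  | [] => []
  | o :: l => rw0 (o :: l) ++ (rw1 l).map (o :: ·)

/-- A sufficient test for inclusion. -/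
def le? : ℕ → List Op → List Op → Bool
  | 0, l, l' => l.isSublist l'
  | n + 1, l, l' => l.isSublist l' || (rw1 l).any fun m => le? n m l'

theorem rw0_le {l m : List Op} (h : m ∈ rw0 l) (C : Cl) : app l C ≤ app m C := by
  unfold rw0 at h
  split at h <;> simp only [List.mem_singleton, List.not_mem_nil] at h <;> subst h
  exacts [hh _, ss _, pp _, sh _, ph _, ps _]

theorem rw1_le {l m : List Op} (h : m ∈ rw1 l) (C : Cl) : app l C ≤ app m C := by
  induction l generalizing m with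
  | nil => cases h
  | cons o l ih =>
    rcases List.mem_append.1 h with h | h
    · exact rw0_le h C
    · obtain ⟨m, hm, rfl⟩ := List.mem_map.1 h
      exact app_cons_mono o (ih hm)

theorem le?_le {n : ℕ} {l l' : List Op} (h : le? n l l' = true) (C : Cl) : app l C ≤ app l' C := by
  induction n generalizing l with
  | zero => exact app_sub (List.isSublist_iff_sublist.1 h) C
  | succ n ih =>
    rw [le?, Bool.or_eq_true, List.any_eq_true] at h
    rcases h with h | ⟨m, hm, h⟩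
    · exact app_sub (List.isSublist_iff_sublist.1 h) C
    · exact (rw1_le hm C).trans (ih h)

open Op in
/-- Normal forms. -/
def NF : List (List Op) := [[], [h], [s], [p], [s, h], [h, s], [p, h], [h, p], [s, p], [p, s],
  [p, s, h], [p, h, s], [s, p, h], [s, p, h, s], [s, h, p], [s, h, p, s], [h, p, s], [h, s, p]]

theorem nf_closed : ∀ l ∈ NF, ∀ o ∈ [Op.h, Op.s, Op.p], ∃ m ∈ NF,
    le? 6 (o :: l) m = true ∧ le? 6 m (o :: l) = true := by decide +kernel

/-- Adjoining the trivial semigroups to a class. -/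
def Tr (C : Cl) : Cl := fun N => C N ∨ Subsingleton N.carrier

/-- Trivial factors of a product can be dropped. -/
noncomputable def drop {I : Type} (T : I → FinSg) (J : I → Prop)
    (h : ∀ i, ¬J i → Subsingleton (T i).carrier) :
    (∀ i, (T i).carrier) ≃* ∀ j : {i // J i}, (T j).carrier :=
  MulEquiv.ofBijective (MulHom.pi fun j : {i // J i} => Pi.evalMulHom (fun i => (T i).carrier) j.1)
    ⟨fun a b hab => funext fun i => by
      by_cases hi : J i
      · exact congrFun hab ⟨i, hi⟩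
      · exact (h i hi).elim _ _, fun a => by
      classical
      exact ⟨fun i => if hi : J i then a ⟨i, hi⟩ else Classical.arbitrary _,
        funext fun j => dif_pos j.2⟩⟩

theorem h_tr (C : Cl) : H (Tr C) = Tr (H C) := by
  refine funext fun N => propext ⟨?_, ?_⟩
  · rintro ⟨T, hT | hT, f, hf⟩
    exacts [Or.inl ⟨T, hT, f, hf⟩, Or.inr hf.subsingleton]
  · rintro (⟨T, hT, h⟩ | h)
    exacts [⟨T, Or.inl hT, h⟩, ⟨N, Or.inr h, MulHom.id _, surjective_id⟩]

theorem s_tr (C : Cl) : S (Tr C) = Tr (S C) := by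
  refine funext fun N => propext ⟨?_, ?_⟩
  · rintro ⟨T, hT | hT, f, hf⟩
    exacts [Or.inl ⟨T, hT, f, hf⟩, Or.inr hf.subsingleton]
  · rintro (⟨T, hT, h⟩ | h)
    exacts [⟨T, Or.inl hT, h⟩, ⟨N, Or.inr h, MulHom.id _, injective_id⟩]

theorem p_tr (C : Cl) : P (Tr C) = Tr (P C) := by
  refine funext fun N => propext ⟨?_, ?_⟩
  · rintro ⟨n, T, hT, ⟨ψ⟩⟩
    by_cases h : ∃ i, C (T i)
    · have : Nonempty {i // C (T i)} := nonempty_subtype.2 h
      exact Or.inl (p_of (J := {i // C (T i)}) (fun j => T j) (fun j => j.2) N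
        (ψ.trans (drop T _ fun i hi => (hT i).resolve_left hi)))
    · have := fun i => (hT i).resolve_left fun hi => h ⟨i, hi⟩
      exact Or.inr ψ.injective.subsingleton
  · rintro (⟨n, T, hT, h⟩ | h)
    exacts [⟨n, T, fun i => Or.inl (hT i), h⟩, le_app_cons Op.p [] (Tr C) N (Or.inr h)]

theorem p0_eq (C : Cl) : P0 C = Tr (P C) := by
  refine funext fun N => propext ⟨?_, ?_⟩
  · rintro ⟨_ | n, T, hT, ⟨ψ⟩⟩
    exacts [Or.inr ψ.injective.subsingleton, Or.inl ⟨n, T, hT, ⟨ψ⟩⟩]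
  · rintro (⟨n, T, hT, h⟩ | h)
    · exact ⟨_, T, hT, h⟩
    · have := uniqueOfSubsingleton (Classical.arbitrary N.carrier)
      exact ⟨0, fun i => i.elim0, fun i => i.elim0, ⟨MulEquiv.ofUnique⟩⟩

theorem tr_tr (C : Cl) : Tr (Tr C) = Tr C := funext fun N => propext (by unfold Tr; tauto)

theorem exists_nf (K : List Op) (C : Cl) :
    ∃ l ∈ NF, app K C = app l C ∨ app K C = Tr (app l C) := by
  induction K with
  | nil => exact ⟨[], by simp [NF], Or.inl rfl⟩
  | cons o K ih =>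
    obtain ⟨l, hl, h⟩ := ih
    have h1 : ∀ o ∈ [Op.h, Op.s, Op.p], ∃ m ∈ NF, app (o :: l) C = app m C := fun o ho => by
      obtain ⟨m, hm, h1, h2⟩ := nf_closed l hl o ho
      exact ⟨m, hm, le_antisymm (le?_le h1 C) (le?_le h2 C)⟩
    cases o
    · obtain ⟨m, hm, h1⟩ := h1 Op.h (by simp)
      exact ⟨m, hm, h.imp (fun h => by rw [← h1, app, h, app]) fun h => by
        rw [← h1, app, h, app, h_tr]⟩
    · obtain ⟨m, hm, h1⟩ := h1 Op.s (by simp)
      exact ⟨m, hm, h.imp (fun h => by rw [← h1, app, h, app]) fun h => by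
        rw [← h1, app, h, app, s_tr]⟩
    · obtain ⟨m, hm, h1⟩ := h1 Op.p (by simp)
      exact ⟨m, hm, h.imp (fun h => by rw [← h1, app, h, app]) fun h => by
        rw [← h1, app, h, app, p_tr]⟩
    · obtain ⟨m, hm, h1⟩ := h1 Op.p (by simp)
      refine ⟨m, hm, Or.inr ?_⟩
      rw [← h1]
      show P0 (app K C) = Tr (P (app l C))
      exact h.elim (fun h => by rw [h, p0_eq]) fun h => by rw [h, p0_eq, p_tr, tr_tr]

end Pool.Agent.H.MP_152bd8_lc
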