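import Pool.Agent.H.MP_152bd8_lc.F
import Pool.Agent.H.MP_99598b_lc.E
import Pool.Agent.Lib.helper21.CPred

/-! Bounded operators preserve decidability; the reduction to the universal theory. -/

namespace Pool.Agent.H.MP_152bd8_lc

open Function Pool.Agent.H.MP_99598b_lc Pool.Agent.Lib.helper21.PR Pool.Agent.Lib.helper21.CPred

attribute [local irreducible] Primrec Computable

theorem cexL {α β : Type} [Primcodable α] [Primcodable β] [Inhabited β] {p : α → β → Prop}
    (hp : ComputablePred fun z : α × β => p z.1 z.2) {L : α → List β} (hL : Primrec L) :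
    ComputablePred fun a => ∃ x ∈ L a, p a x := by
  refine (cex (p := fun a y => p a ((L a).getD y default)) (n := fun a => (L a).length)
    (ccomp hp (f := fun z : α × ℕ => (z.1, (L z.1).getD z.2 default))
      (Primrec.to_comp (by fun_prop))) (Primrec.to_comp (by fun_prop))).of_eq fun a => ⟨?_, ?_⟩
  · rintro ⟨y, hy, h⟩
    rw [List.getD_eq_getElem _ _ hy] at h
    exact ⟨_, List.getElem_mem hy, h⟩
  · rintro ⟨x, hx, h⟩
    obtain ⟨y, hy, rfl⟩ := List.getElem_of_mem hx
    exact ⟨y, hy, by rwa [List.getD_eq_getElem _ _ hy]⟩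

theorem callL {α β : Type} [Primcodable α] [Primcodable β] [Inhabited β] {p : α → β → Prop}
    (hp : ComputablePred fun z : α × β => p z.1 z.2) {L : α → List β} (hL : Primrec L) :
    ComputablePred fun a => ∀ x ∈ L a, p a x :=
  (cexL (p := fun a y => ¬p a y) hp.not hL).not.of_eq fun a => by simp

theorem cexLe {α : Type} [Primcodable α] {p : α → ℕ → Prop}
    (hp : ComputablePred fun z : α × ℕ => p z.1 z.2) {n : α → ℕ} (hn : Primrec n) :
    ComputablePred fun a => ∃ y ≤ n a, p a y :=
  (cex hp (n := fun a => n a + 1) (Primrec.to_comp (by fun_prop))).of_eq fun a => by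
    simp only [Nat.lt_succ_iff]

/-- Uniformly computable classes. -/
def DecC (C : PC) : Prop := ∃ q : ℕ × List (List ℕ) → Prop, ComputablePred q ∧
  ∀ (b : ℕ) (M : Type) [Semigroup M] [Nonempty M] (n : ℕ) (e : Fin n ≃ M), q (b, tab e) ↔ C b M

theorem DecC.hb {C : PC} (h : DecC C) : DecC (Hb C) := by
  obtain ⟨q, hq, h⟩ := h
  refine ⟨fun a => (∃ t ∈ tabs a.1, Valid t ∧ q (a.1, t) ∧
    ∃ g ∈ allL t.length (List.range a.2.length), IsHom t a.2 g ∧
      ∀ y < a.2.length, ∃ x < t.length, g.getD x 0 = y), ?_, ?_⟩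
  · refine cexL ?_ ?_
    · refine cand (cprim (pred (by fun_prop))) (cand ?_ (cprim (pred (by fun_prop))))
      exact ccomp hq (Primrec.to_comp (by fun_prop))
    · fun_prop
  intro b M _ _ n e
  constructor
  · rintro ⟨t, ht, hv, h1, g, -, h2, h3⟩
    obtain ⟨T, _, _, _, e', he⟩ := exists_sg hv
    rw [← he] at h1 h2
    obtain ⟨f, hf⟩ := hom_of e' e h2
    refine ⟨T, _, inferInstance, (h b T _ e').1 h1, ?_, f, fun y => ?_⟩
    · rw [← Nat.card_congr e', Nat.card_fin]; exact tabs_le ht
    · simp only [tab_length, fa e, exi e', ← hf, r_inj] at h3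
      exact h3 y
  · rintro ⟨T, _, _, h1, h2, f, hf⟩
    have : Nonempty T := hf.nonempty
    let e' := (Finite.equivFin T).symm
    obtain ⟨g, hg, h3, h4⟩ := hom_list e' e f le_rfl
    refine ⟨tab e', tab_mem e' h2, valid_tab e', (h b T _ e').2 h1, g, by simpa using hg, h3, ?_⟩
    simp only [tab_length, fa e, exi e', h4, r_inj]
    exact hf

theorem DecC.sb {C : PC} (h : DecC C) : DecC (Sb C) := by
  obtain ⟨q, hq, h⟩ := h
  refine ⟨fun a => (∃ t ∈ tabs a.1, Valid t ∧ q (a.1, t) ∧
    ∃ g ∈ allL a.2.length (List.range t.length), IsHom a.2 t g ∧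
      ∀ x < a.2.length, ∀ y < a.2.length, g.getD x 0 = g.getD y 0 → x = y), ?_, ?_⟩
  · refine cexL ?_ ?_
    · refine cand (cprim (pred (by fun_prop))) (cand ?_ (cprim (pred (by fun_prop))))
      exact ccomp hq (Primrec.to_comp (by fun_prop))
    · fun_prop
  intro b M _ _ n e
  constructor
  · rintro ⟨t, ht, hv, h1, g, -, h2, h3⟩
    obtain ⟨T, _, _, _, e', he⟩ := exists_sg hv
    rw [← he] at h1 h2
    obtain ⟨f, hf⟩ := hom_of e e' h2
    refine ⟨T, _, inferInstance, (h b T _ e').1 h1, ?_, f, fun x y => ?_⟩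
    · rw [← Nat.card_congr e', Nat.card_fin]; exact tabs_le ht
    · simp only [tab_length, fa e, ← hf, r_inj] at h3
      exact h3 x y
  · rintro ⟨T, _, _, h1, h2, f, hf⟩
    have : Nonempty T := ⟨f (Classical.arbitrary M)⟩
    let e' := (Finite.equivFin T).symm
    obtain ⟨g, hg, h3, h4⟩ := hom_list e e' f le_rfl
    refine ⟨tab e', tab_mem e' h2, valid_tab e', (h b T _ e').2 h1, g, by simpa using hg, h3, ?_⟩
    simp only [tab_length, fa e, h4, r_inj]
    exact fun x y hxy => hf hxy

theorem DecC.pb {C : PC} (h : DecC C) : DecC (Pb C) := by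
  obtain ⟨q, hq, h⟩ := h
  refine ⟨fun a => (a.2.length ≤ a.1 ∧ ∃ k ≤ a.1, ∃ L ∈ allL k ((tabs a.1).flatMap fun t =>
    (allL a.2.length (List.range a.1)).map fun g => (t, g)), 0 < k ∧
    (∀ p ∈ L, Valid p.1 ∧ q (a.1, p.1) ∧ IsHom a.2 p.1 p.2) ∧
    (∀ x < a.2.length, ∀ y < a.2.length, (∀ p ∈ L, p.2.getD x 0 = p.2.getD y 0) → x = y) ∧
    (L.map fun p => p.1.length).prod = a.2.length), ?_, ?_⟩
  · refine cand (cprim (pred (by fun_prop))) (cexLe ?_ ?_)
    · refine cexL ?_ ?_
      · refine cand (cprim (pred (by fun_prop))) (cand (callL ?_ ?_) (cprim (pred (by fun_prop))))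
        · refine cand (cprim (pred (by fun_prop))) (cand ?_ (cprim (pred (by fun_prop))))
          exact ccomp hq (Primrec.to_comp (by fun_prop))
        · fun_prop
      · fun_prop
    · fun_prop
  intro b M _ _ n e
  constructor
  · rintro ⟨h0, k, hk, L, hL, hk0, h1, h2, h3⟩
    obtain ⟨rfl, hL'⟩ := mem_allL.1 hL
    choose T sg fin ne e' he using fun j : Fin L.length => exists_sg (h1 L[j] (by simp)).1
    have h4 : ∀ j : Fin L.length, ∃ f : M →ₙ* T j,
        ∀ x, ((e' j).symm (f x) : ℕ) = L[j].2.getD (e.symm x) 0 := fun j =>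
      hom_of e (e' j) (by rw [he]; exact (h1 L[j] (by simp)).2.2)
    choose f hf using h4
    have h5 : ∀ j, Nat.card (T j) = L[j].1.length := fun j => by
      rw [← Nat.card_congr (e' j), Nat.card_fin]
    have h6 : Nat.card (∀ j, T j) = n := by
      rw [Nat.card_pi]
      simp only [h5]
      rw [tab_length] at h3
      exact (Fin.prod_univ_fun_getElem L fun p => p.1.length).trans h3
    have h7 : Injective (MulHom.pi f) := by
      intro x y hxy
      simp only [tab_length, fa e, r_inj] at h2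
      refine h2 x y fun p hp => ?_
      obtain ⟨j, rfl⟩ := List.mem_iff_get.1 hp
      exact (hf j x).symm.trans ((congrArg _ (congrArg _ (congrFun hxy j))).trans (hf j y))
    refine ⟨⟨Fin L.length, inferInstance, ⟨⟨0, hk0⟩⟩, T, sg, fin, ne, by simpa using hk,
      fun j => ?_, by rw [h6]; simpa using h0, fun j => (h b (T j) _ (e' j)).1 ?_⟩,
      ⟨MulEquiv.ofBijective (MulHom.pi f) ?_⟩⟩
    · have h8 := hL' L[j] (by simp)
      simp only [List.mem_flatMap, List.mem_map] at h8
      obtain ⟨t, ht, g, -, h8⟩ := h8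
      rw [h5, ← h8]
      exact tabs_le ht
    · rw [he]; exact (h1 L[j] (by simp)).2.1
    · exact h7.bijective_of_nat_card_le (by rw [h6, ← Nat.card_congr e, Nat.card_fin])
  · rintro ⟨F, ⟨ψ⟩⟩
    let σ := (Finite.equivFin F.J).symm
    let e' := fun j => (Finite.equivFin (F.V j)).symm
    have h1 := fun j => hom_list e (e' j) ((Pi.evalMulHom F.V j).comp ψ.toMulHom) (F.cV j)
    choose g hg hg' hg'' using h1
    have h2 : Nat.card (∀ j, F.V j) = n := by
      rw [← Nat.card_congr ψ.toEquiv, ← Nat.card_congr e, Nat.card_fin]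
    refine ⟨by simpa [← h2] using F.cP, _, F.cJ, List.ofFn fun i => (tab (e' (σ i)), g (σ i)),
      mem_allL.2 ⟨by simp, ?_⟩, Nat.card_pos, ?_, ?_, ?_⟩
    · simp only [List.forall_mem_ofFn_iff, List.mem_flatMap, List.mem_map, tab_length]
      exact fun i => ⟨_, tab_mem _ (F.cV _), _, hg _, rfl⟩
    · simp only [List.forall_mem_ofFn_iff]
      exact fun i => ⟨valid_tab _, (h b _ _ _).2 (F.pr _), hg' _⟩
    · simp only [List.forall_mem_ofFn_iff, tab_length, fa e, hg'', r_inj]
      intro x y hxy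
      apply ψ.injective
      funext j
      obtain ⟨i, rfl⟩ := σ.surjective j
      exact hxy i
    · have := Fintype.ofFinite F.J
      rw [List.map_ofFn, List.prod_ofFn, tab_length, ← h2, Nat.card_pi]
      exact Fintype.prod_equiv σ _ _ fun i => tab_length _

theorem DecC.fin {C : PC} (h : DecC C) {f : ℕ → ℕ} (hf : Primrec f) {D : Cl}
    (hD : ∀ M : FinSg, C (f (Nat.card M.carrier)) M.carrier ↔ D M) : Decid D := by
  obtain ⟨q, hq, h⟩ := h
  obtain ⟨g, hg, rfl⟩ := ComputablePred.computable_iff.1 hq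
  refine ⟨fun t => g (f t.length, t), hg.comp (Primrec.to_comp (by fun_prop)), fun M n e => ?_⟩
  have h1 : (table M e).length = Nat.card M.carrier := by
    rw [← Nat.card_congr e, Nat.card_fin]; exact tab_length e
  rw [← hD, ← h _ _ n e]
  show g (f (table M e).length, tab e) = true ↔ _
  rw [h1]

/-- A class of finite semigroups as a parametrised class. -/
def lift (C : Cl) : PC := fun _ T _ => ∃ (_ : Finite T) (_ : Nonempty T), C ⟨T⟩

theorem Decid.lift {C : Cl} (h : Decid C) : DecC (lift C) := by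
  obtain ⟨f, hf, h⟩ := h
  refine ⟨fun a => f a.2 = true, ComputablePred.computable_iff.2
    ⟨_, hf.comp Computable.snd, rfl⟩, fun b M _ _ n e => ?_⟩
  have := Finite.of_equiv _ e
  exact (h ⟨M⟩ n e).trans ⟨fun h => ⟨_, _, h⟩, fun ⟨_, _, h⟩ => h⟩

theorem p_βv (ω : ℕ) : Primrec (βv ω) := by
  unfold βv bv rr jj kv; fun_prop

theorem dec_triv {C : PC} (h : DecC C) : DecC fun b M _ => C b M ∨ Subsingleton M := by
  obtain ⟨q, hq, h⟩ := h
  refine ⟨fun a => q a ∨ ∀ x < a.2.length, ∀ y < a.2.length, x = y,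
    cor hq (cprim (pred (by fun_prop))), fun b M _ _ n e => ?_⟩
  simp only [h, tab_length, fa e, r_inj, subsingleton_iff]

theorem dec_and {C : PC} (h : DecC C) : DecC fun b M _ => ZS M ∧ C b M := by
  obtain ⟨q, hq, h⟩ := h
  obtain ⟨q', hq', h'⟩ := dec_zs
  exact ⟨fun a => q' a = true ∧ q a, cand (ComputablePred.computable_iff.2
    ⟨_, hq'.to_comp, rfl⟩) hq, fun b M _ _ n e => and_congr (h' b M n e) (h b M n e)⟩

/-- The clause attached to a table, a candidate zero and two index maps. -/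
def clause (t : List (List ℕ)) (z : ℕ) (A B : List ℕ) : Clause :=
  ((List.range t.length).flatMap fun x => (List.range t.length).flatMap fun y =>
    if op t x y = z then [] else [([(op t x y, true)],
      [(x, true), (t.length + Nat.pair (B.getD x 0) (A.getD y 0), true), (y, true)])],
  (List.range t.length).flatMap fun x => (List.range t.length).flatMap fun y =>
    if x ≠ z ∧ y ≠ z ∧ A.getD x 0 = A.getD y 0 ∧ B.getD x 0 = B.getD y 0 ∧ x ≠ y then
      [([(x, true)], [(y, true)])] else [])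

theorem not_holds {V : FinGp → Prop} {t : List (List ℕ)} {z : ℕ} {A B : List ℕ} :
    ¬Holds V (clause t z A B) ↔ ∃ G, V G ∧ ∃ α : ℕ → G.carrier,
      (∀ x < t.length, ∀ y < t.length, op t x y ≠ z → α (op t x y) =
        α x * α (t.length + Nat.pair (B.getD x 0) (A.getD y 0)) * α y) ∧
      ∀ x < t.length, ∀ y < t.length, x ≠ z → y ≠ z → A.getD x 0 = A.getD y 0 →
        B.getD x 0 = B.getD y 0 → α x = α y → x = y := by
  unfold Holds
  push Not
  refine exists_congr fun G => and_congr_right fun _ => exists_congr fun α => and_congr ?_ ?_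
  · simp only [clause, List.forall_mem_flatMap, List.mem_range]
    refine forall₄_congr fun x _ y _ => ?_
    split_ifs with h
    · simp [h]
    · simp [h, ev, mul_assoc]
  · simp only [clause, List.forall_mem_flatMap, List.mem_range]
    refine forall₄_congr fun x _ y _ => ?_
    split_ifs with h
    · simp only [List.mem_singleton, forall_eq, ev, List.map_cons, List.map_nil, List.prod_cons,
        List.prod_nil, if_true, mul_one]
      tauto
    · simp only [List.not_mem_nil, false_imp_iff, implies_true, true_iff]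
      tauto

theorem dec_sz {V : FinGp → Prop} (hV : PsV V) (h : DecUniv V) : DecC fun _ => SZ V := by
  classical
  obtain ⟨f, hf, h⟩ := h
  refine ⟨fun a => ∃ z ≤ a.2.length, ∃ A ∈ allL a.2.length (List.range a.2.length),
    ∃ B ∈ allL a.2.length (List.range a.2.length),
      ((∀ x < a.2.length, ∀ y < a.2.length, x = z → op a.2 x y = z ∧ op a.2 y x = z) ∧
      (∀ x < a.2.length, ∀ y < a.2.length, op a.2 x y ≠ z →
        A.getD (op a.2 x y) 0 = A.getD x 0 ∧ B.getD (op a.2 x y) 0 = B.getD y 0) ∧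
      ∀ x < a.2.length, ∀ y < a.2.length, ∀ x' < a.2.length, ∀ y' < a.2.length, x ≠ z → y ≠ z →
        x' ≠ z → y' ≠ z → B.getD x 0 = B.getD x' 0 → A.getD y 0 = A.getD y' 0 →
        op a.2 x y = z → op a.2 x' y' = z) ∧ ¬f (clause a.2 z A B) = true, ?_, ?_⟩
  · refine cexLe ?_ ?_
    · refine cexL ?_ ?_
      · refine cexL ?_ ?_
        · refine cand (cprim (pred (by fun_prop))) ?_
          refine ComputablePred.not (ComputablePred.computable_iff.2 ⟨_, hf.comp ?_, rfl⟩)
          refine Primrec.to_comp ?_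
          unfold clause
          fun_prop
        · fun_prop
      · fun_prop
    · fun_prop
  intro b M _ _ n e
  have := Finite.of_equiv _ e
  simp only [h, not_holds, tab_length, fa e, op_tab, r_inj]
  constructor
  · rintro ⟨z, -, A, hA, B, hB, ⟨h1, h2, h3⟩, G, hG, α, h4, h5⟩
    have h6 : ∀ A ∈ allL n (List.range n), ∀ x : M, ∃ y : M,
        (e.symm y : ℕ) = A.getD (e.symm x) 0 := by
      intro A hA x
      obtain ⟨h6, h7⟩ := mem_allL.1 hA
      have h8 : (e.symm x : ℕ) < A.length := h6 ▸ (e.symm x).2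
      rw [List.getD_eq_getElem _ _ h8]
      exact ⟨e ⟨_, List.mem_range.1 (h7 _ (List.getElem_mem h8))⟩, by simp⟩
    choose a ha using h6 A hA
    choose c hc using h6 B hB
    simp only [← ha, ← hc, r_inj] at h2 h3 h4 h5
    exact Co.sz hV (zer := fun x => (e.symm x : ℕ) = z) ⟨G, a, c, fun x => α (e.symm x),
      fun u v => α (n + Nat.pair (e.symm u) (e.symm v)), hG,
      fun x y hxy => ⟨(h2 x y hxy).1, (h2 x y hxy).2, h4 x y hxy⟩, h5, h3⟩
      (fun x y hx hy => (r_inj e x y).1 (hx.trans hy.symm)) h1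
  · intro hS
    obtain ⟨zer, ⟨G, a, c, g, p, hG, h1, h2, h3⟩, B, hN⟩ := hS.co
    replace hN := hN B le_rfl
    obtain ⟨z, hz, hz'⟩ : ∃ z ≤ n, ∀ x, (e.symm x : ℕ) = z ↔ zer x := by
      by_cases h4 : ∃ x, zer x
      · obtain ⟨x, hx⟩ := h4
        exact ⟨e.symm x, (e.symm x).2.le, fun y => (r_inj e y x).trans
          ⟨fun h => h ▸ hx, fun h => hN.uniq _ _ h hx⟩⟩
      · exact ⟨n, le_rfl, fun x => ⟨fun h => absurd h (e.symm x).2.ne, fun h => absurd ⟨x, h⟩ h4⟩⟩
    have h6 : ∀ a : M → M, ∃ A ∈ allL n (List.range n), ∀ x : M,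
        A.getD (e.symm x) 0 = e.symm (a x) := fun a =>
      ⟨List.ofFn fun i => e.symm (a (e i)), mem_allL.2 ⟨by simp, by simp⟩,
        fun x => by simp [List.getD_eq_getElem?_getD]⟩
    obtain ⟨A, hA, ha⟩ := h6 a
    obtain ⟨B, hB, hc⟩ := h6 c
    let e' : ℕ → M := fun j => if h : j < n then e ⟨j, h⟩ else Classical.arbitrary M
    have he : ∀ x, e' (e.symm x) = x := fun x => by simp [e']
    refine ⟨z, hz, A, hA, B, hB, ?_, G, hG, fun m => if m < n then g (e' m) else
      p (e' (m - n).unpair.1) (e' (m - n).unpair.2), ?_⟩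
    · simp only [ha, hc, ne_eq, hz', r_inj]
      exact ⟨fun x y hx => ⟨hN.left _ _ hx, hN.right _ _ hx⟩,
        fun x y hxy => ⟨(h1 x y hxy).1, (h1 x y hxy).2.1⟩, h3⟩
    · simp only [ha, hc, ne_eq, hz', r_inj, Fin.is_lt, if_true, he, add_lt_iff_neg_left,
        not_lt_zero, if_false, Nat.add_sub_cancel_left, Nat.unpair_pair]
      exact ⟨fun x y hxy => (h1 x y hxy).2.2, h2⟩

end Pool.Agent.H.MP_152bd8_lc
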