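import Pool.Agent.H.MP_152bd8_lc.G

/-! Decidability of the eighteen classes. -/

namespace Pool.Agent.H.MP_152bd8_lc

open Function Pool.Agent.H.MP_99598b_lc Pool.Agent.Lib.helper21.PR

attribute [local irreducible] Primrec Computable

variable {V : FinGp → Prop}

theorem c0_iff (T : FinSg) : C0 T ↔ ZS T.carrier := by
  refine exists_congr fun z => and_congr_right fun hz => ⟨?_, ?_⟩
  · rintro ⟨⟨a, b, hab⟩, h⟩
    refine ⟨⟨_, hab⟩, fun x hx y => ?_⟩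
    have h1 : ∀ x, IsIdeal {y : T.carrier | ∃ c d, y = c * x * d} := by
      intro x
      refine ⟨⟨_, x, x, rfl⟩, ?_⟩
      rintro _ ⟨c, d, rfl⟩ b
      exact ⟨⟨c, d * b, mul_assoc _ _ _⟩, b * c, d, by simp only [mul_assoc]⟩
    rcases h _ (h1 x) with h2 | h2
    · exfalso
      have h3 : IsIdeal {x : T.carrier | ∀ c d, c * x * d = z} := by
        refine ⟨⟨z, fun c d => by rw [(hz c).2, (hz d).1]⟩, fun x hx b => ⟨fun c d => ?_,
          fun c d => ?_⟩⟩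
        · simpa only [mul_assoc] using hx c (b * d)
        · simpa only [mul_assoc] using hx (c * b) d
      have h4 : x ∈ {x : T.carrier | ∀ c d, c * x * d = z} := fun c d =>
        (Set.ext_iff.1 h2 _).1 ⟨c, d, rfl⟩
      have h5 := (h _ h3).resolve_left fun h5 => hx (by rwa [h5] at h4)
      have h6 : IsIdeal {y : T.carrier | ∃ c d, y = c * d} := by
        refine ⟨⟨_, a, b, rfl⟩, ?_⟩
        rintro _ ⟨c, d, rfl⟩ b
        exact ⟨⟨_, _, rfl⟩, _, _, rfl⟩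
      have h7 := (h _ h6).resolve_left fun h7 => hab ((Set.ext_iff.1 h7 _).1 ⟨a, b, rfl⟩)
      obtain ⟨c, d, rfl⟩ := (Set.ext_iff.1 h7 a).2 trivial
      exact hab ((Set.ext_iff.1 h5 d).2 trivial c b)
    · exact (Set.ext_iff.1 h2 y).2 trivial
  · rintro ⟨⟨a, ha⟩, h⟩
    obtain ⟨c, d, h1⟩ := h a ha a
    refine ⟨⟨_, _, h1 ▸ ha⟩, fun I hI => ?_⟩
    by_cases h2 : ∃ x ∈ I, x ≠ z
    · obtain ⟨x, hx, hx'⟩ := h2
      refine Or.inr (Set.eq_univ_of_forall fun y => ?_)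
      obtain ⟨c, d, rfl⟩ := h x hx' y
      exact (hI.2 _ (hI.2 _ hx c).2 d).1
    · push Not at h2
      obtain ⟨x, hx⟩ := hI.1
      exact Or.inl (Set.eq_singleton_iff_unique_mem.2 ⟨h2 x hx ▸ hx, h2⟩)

theorem zv_iff (T : FinSg) : ZV V T ↔ ZG V T.carrier := and_congr_left fun _ => c0_iff T

theorem s_iff (T : FinSg) : S (ZV V) T ↔ SZ V T.carrier := by
  constructor
  · rintro ⟨U, hU, h⟩
    exact ⟨_, _, inferInstance, (zv_iff U).1 hU, h⟩
  · rintro ⟨U, _, _, hU, f, hf⟩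
    have : Nonempty U := ⟨f (Classical.arbitrary _)⟩
    exact ⟨⟨U⟩, (zv_iff _).2 hU, f, hf⟩

theorem p_fam {b : ℕ} {Pr : ∀ (V : Type) [Semigroup V], Prop} (F : Fam b Pr) {C : Cl}
    (h : ∀ T : FinSg, Pr T.carrier → C T) (N : FinSg) (ψ : N.carrier ≃* ∀ j, F.V j) : P C N :=
  p_of (fun j => ⟨F.V j⟩) (fun j => h _ (F.pr j)) N ψ

theorem hb_fam {b : ℕ} {Pr : PC} {C : Cl} (h : ∀ T : FinSg, Pr b T.carrier → C T) (M : FinSg)
    (hM : Hb (Pb Pr) b M.carrier) : H (P C) M := by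
  obtain ⟨T, _, _, ⟨F, ⟨ψ⟩⟩, -, f, hf⟩ := hM
  have : Nonempty T := hf.nonempty
  exact ⟨⟨T⟩, p_fam F h _ ψ, f, hf⟩

theorem fam_hb {b : ℕ} {Pr : PC} {M : Type} [Semigroup M] (F : Fam b (Pr b))
    (π : (∀ j, F.V j) →ₙ* M) (hπ : Surjective π) : Hb (Pb Pr) b M :=
  ⟨_, _, inferInstance, ⟨F, ⟨MulEquiv.refl _⟩⟩, F.cP, π, hπ⟩

theorem Decid.tr {C : Cl} (h : Decid C) : Decid (Tr C) :=
  (dec_triv h.lift).fin (f := id) .id fun _ =>
    or_congr_left ⟨fun ⟨_, _, h⟩ => h, fun h => ⟨_, _, h⟩⟩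

theorem Decid.p {C : Cl} (h : Decid C) : Decid (P C) := by
  classical
  refine h.lift.pb.fin (f := fun m => m + 1) (by fun_prop) fun M => ⟨?_, ?_⟩
  · rintro ⟨F, ⟨ψ⟩⟩
    exact p_fam F (fun T ⟨_, _, h⟩ => h) M ψ
  rintro ⟨n, T, hT, ⟨ψ⟩⟩
  let J := fun i => i = 0 ∨ Nontrivial (T i).carrier
  let φ := ψ.trans (drop T J fun i hi => not_nontrivial_iff_subsingleton.1 fun h => hi (Or.inr h))
  let a : ∀ i, (T i).carrier := fun i => Classical.arbitrary _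
  refine ⟨⟨{i // J i}, inferInstance, ⟨⟨0, Or.inl rfl⟩⟩, fun j => (T j).carrier, inferInstance,
    inferInstance, inferInstance, ?_, fun j => ?_, by rw [← Nat.card_congr φ.toEquiv]; omega,
    fun j => ⟨_, _, hT j⟩⟩, ⟨φ⟩⟩
  · have h1 : ∀ j : {i // J i}, ∃ c : (T j).carrier, j.1 ≠ 0 → c ≠ a j := fun j => by
      rcases j.2 with h1 | h1
      · exact ⟨a j, fun h => absurd h1 h⟩
      · exact (exists_ne (a j)).imp fun _ h _ => h
    choose c hc using h1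
    rw [Nat.card_congr ψ.toEquiv, ← Finite.card_option]
    refine Nat.card_le_card_of_injective
      (fun j => if j.1 = 0 then none else some (update a j (c j))) fun j j' h => ?_
    by_cases h2 : j.1 = 0 <;> by_cases h3 : j'.1 = 0 <;>
      simp only [h2, h3, if_true, if_false, reduceCtorEq, Option.some.injEq] at h
    · exact Subtype.ext (h2.trans h3.symm)
    · by_contra h4
      have h5 := congrFun h j
      rw [update_self, update_of_ne fun h6 => h4 (Subtype.ext h6)] at h5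
      exact hc j h2 h5
  · rw [Nat.card_congr ψ.toEquiv]
    exact (Nat.card_le_card_of_surjective (fun s : ∀ i, (T i).carrier => s j)
      fun x => ⟨update a j x, update_self _ _ _⟩).trans (Nat.le_succ _)

theorem sp_of {C : Cl} {M : FinSg} (h : ∀ a b : M.carrier, ∃ T, C T ∧
    ∃ f : M.carrier →ₙ* T.carrier, a ≠ b → f a ≠ f b) :
    Sb (Pb (lift (S C))) (Nat.card M.carrier * Nat.card M.carrier + Nat.card M.carrier +
      Nat.card M.carrier ^ (Nat.card M.carrier * Nat.card M.carrier)) M.carrier := by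
  choose T hT f hf using h
  have h1 : ∀ j : M.carrier × M.carrier, Nat.card (f j.1 j.2).srange ≤ Nat.card M.carrier :=
    fun j => Nat.card_le_card_of_surjective _ (f j.1 j.2).srangeRestrict_surjective
  have h2 : ∀ j : M.carrier × M.carrier, Nonempty (f j.1 j.2).srange := fun j => ⟨⟨_, j.1, rfl⟩⟩
  have h3 : Nat.card (∀ j : M.carrier × M.carrier, (f j.1 j.2).srange) ≤
      Nat.card M.carrier ^ (Nat.card M.carrier * Nat.card M.carrier) := by
    have := Fintype.ofFinite M.carrier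
    rw [Nat.card_pi]
    refine (Finset.prod_le_pow_card _ _ _ fun j _ => h1 j).trans ?_
    simp
  refine ⟨_, _, inferInstance, ⟨⟨M.carrier × M.carrier, inferInstance, inferInstance,
    fun j => (f j.1 j.2).srange, inferInstance, inferInstance, h2,
    by rw [Nat.card_prod]; omega, fun j => (h1 j).trans (by omega), by omega,
    fun j => ⟨inferInstance, h2 j, _, hT _ _, MulMemClass.subtype _, Subtype.val_injective⟩⟩,
    ⟨MulEquiv.refl _⟩⟩, h3.trans (Nat.le_add_left _ _),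
    MulHom.pi fun j => (f j.1 j.2).srangeRestrict, fun a b hab => ?_⟩
  by_contra h4
  exact hf a b h4 (congrArg Subtype.val (congrFun hab (a, b)))

theorem sb_sp {C : Cl} {M : FinSg} {b : ℕ} (h : Sb (Pb (lift (S C))) b M.carrier) :
    S (P C) M := by
  obtain ⟨T, _, _, ⟨F, ⟨ψ⟩⟩, -, f, hf⟩ := h
  have : Nonempty T := ⟨f (Classical.arbitrary _)⟩
  exact ss _ M ⟨⟨T⟩, ps _ _ (p_fam F (fun T ⟨_, _, h⟩ => h) ⟨T⟩ ψ), f, hf⟩

theorem Decid.sp {C : Cl} (h : Decid (S C)) : Decid (S (P C)) := by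
  refine h.lift.pb.sb.fin (f := fun m => m * m + m + m ^ (m * m)) (by fun_prop) fun M =>
    ⟨sb_sp, ?_⟩
  rintro ⟨N, ⟨n, T, hT, ⟨ψ⟩⟩, f, hf⟩
  refine sp_of fun a b => ?_
  by_cases hab : a = b
  · exact ⟨T 0, hT 0, (Pi.evalMulHom _ 0).comp (ψ.toMulHom.comp f), fun h => absurd hab h⟩
  · obtain ⟨i, hi⟩ := Function.ne_iff.1 fun h => hab (hf (ψ.injective h))
    exact ⟨T i, hT i, (Pi.evalMulHom _ i).comp (ψ.toMulHom.comp f), fun _ => hi⟩

theorem s_triv (hV : PsV V) (M : FinSg) (h : Subsingleton M.carrier) : S (ZV V) M :=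
  (s_iff M).2 ((sz_RS hV (hV.triv Unit) (⊤ : Gr Unit) 1).comap
    ⟨fun _ => none, fun _ _ => rfl⟩ (injective_of_subsingleton _))

theorem h_eq (hV : PsV V) : H (ZV V) = Tr (ZV V) := by
  refine funext fun N => propext ⟨?_, ?_⟩
  · rintro ⟨T, hT, f, hf⟩
    exact (zg_map hV ((zv_iff T).1 hT) f hf).imp_left (zv_iff N).2
  · rintro (h | h)
    · exact le_app_cons Op.h [] _ N h
    · obtain ⟨T, hT, -⟩ := s_triv hV N h
      exact ⟨T, hT, ⟨fun _ => Classical.arbitrary _, fun _ _ => h.elim _ _⟩,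
        fun y => ⟨Classical.arbitrary _, h.elim _ _⟩⟩

theorem sh_eq (hV : PsV V) : S (H (ZV V)) = S (ZV V) := by
  rw [h_eq hV, s_tr]
  exact funext fun N => propext ⟨fun h => h.elim id (s_triv hV N), Or.inl⟩

theorem shp_eq (hV : PsV V) : S (H (P (ZV V))) = S (P (ZV V)) := by
  refine le_antisymm (le_trans (app_cons_mono Op.s (l := [Op.h, Op.p]) (l' := [Op.s, Op.p]) ?_)
    (ss _)) (app_cons_mono Op.s (le_app_cons Op.h [Op.p] _))
  rintro M ⟨N, ⟨n, T, hT, ⟨ψ⟩⟩, π, hπ⟩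
  refine sb_sp (sp_of fun a b => ?_)
  by_cases hab : a = b
  · obtain ⟨Q, hQ, f, -⟩ := s_triv hV ⟨Unit⟩ inferInstance
    exact ⟨Q, hQ, f.comp ⟨fun _ => (), fun _ _ => rfl⟩, fun h => absurd hab h⟩
  · obtain ⟨Q, _, _, hQ, f, hf⟩ := hp_sep hV (fun i => (zv_iff _).1 (hT i))
      (π.comp ψ.symm.toMulHom) (hπ.comp ψ.symm.surjective) hab
    have : Nonempty Q := ⟨f a⟩
    exact ⟨⟨Q⟩, (zv_iff _).2 hQ, f, fun _ => hf⟩

theorem main (hV : PsV V) (h : DecUniv V) : CompletelySolvable (ZV V) := by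
  obtain ⟨ω, hω⟩ := exists_big V
  have d0 := dec_sz hV h
  have d1 : DecC fun _ => ZG V := by
    obtain ⟨q, hq, h⟩ := dec_and d0
    refine ⟨q, hq, fun b M _ _ n e => (h b M n e).trans (and_congr_right fun h1 => ⟨?_, ?_⟩)⟩
    · rintro ⟨T, _, _, h2, f, hf⟩
      exact h2.2.comap f hf
    · have := Finite.of_equiv _ e
      exact fun h2 => ⟨M, _, this, ⟨h1, h2⟩, MulHom.id _, injective_id⟩
  have dI : Decid (ZV V) := d1.fin (f := id) .id fun M => (zv_iff M).symm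
  have dS : Decid (S (ZV V)) := d0.fin (f := id) .id fun M => (s_iff M).symm
  have dH : Decid (H (ZV V)) := h_eq hV ▸ dI.tr
  have dSH : Decid (S (H (ZV V))) := (sh_eq hV).symm ▸ dS
  have dHS : Decid (H (S (ZV V))) := by
    refine d0.hb.fin (p_βv ω) fun M => ⟨?_, ?_⟩
    · rintro ⟨T, _, _, h1, -, f, hf⟩
      have : Nonempty T := hf.nonempty
      exact ⟨⟨T⟩, (s_iff _).2 h1, f, hf⟩
    · rintro ⟨U, hU, π, hπ⟩
      exact hs hV hω ((s_iff U).1 hU) π hπ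
  have dSHS : Decid (S (H (S (ZV V)))) := by
    have : S (H (S (ZV V))) = H (S (ZV V)) :=
      le_antisymm (le?_le (n := 2) (l := [.s, .h, .s]) (l' := [.h, .s]) (by decide) _)
        (le_app_cons Op.s [.h, .s] _)
    rwa [this]
  have dHP : Decid (H (P (ZV V))) := by
    refine d1.pb.hb.fin (p_βv ω) fun M => ⟨hb_fam (fun T => (zv_iff T).2) M, ?_⟩
    rintro ⟨T, ⟨k, U, hU, ⟨ψ⟩⟩, π, hπ⟩
    obtain ⟨F, π', h'⟩ := hpV hV hω (fun i => (zv_iff _).1 (hU i)) (π.comp ψ.symm.toMulHom)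
      (hπ.comp ψ.symm.surjective)
    exact fam_hb (Pr := fun _ => ZG V) F π' h'
  have dHPS : Decid (H (P (S (ZV V)))) := by
    refine d0.pb.hb.fin (p_βv ω) fun M => ⟨hb_fam (fun T => (s_iff T).2) M, ?_⟩
    rintro ⟨T, ⟨k, U, hU, ⟨ψ⟩⟩, π, hπ⟩
    obtain ⟨F, π', h'⟩ := hpsV hV hω (fun i => (s_iff _).1 (hU i)) (π.comp ψ.symm.toMulHom)
      (hπ.comp ψ.symm.surjective)
    exact fam_hb (Pr := fun _ => SZ V) F π' h'
  have dSHPS : Decid (S (H (P (S (ZV V))))) := by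
    refine d0.pb.hb.sb.fin (p_βv ω) fun M => ⟨?_, ?_⟩
    · rintro ⟨Q, _, _, h1, -, ι, hι⟩
      have : Nonempty Q := ⟨ι (Classical.arbitrary _)⟩
      exact ⟨⟨Q⟩, hb_fam (fun T => (s_iff T).2) ⟨Q⟩ h1, ι, hι⟩
    · rintro ⟨Q, ⟨T, ⟨k, U, hU, ⟨ψ⟩⟩, π, hπ⟩, ι, hι⟩
      obtain ⟨F, Q', _, π', ι', h1, h2⟩ := shpsV hV hω (fun i => (s_iff _).1 (hU i))
        (π.comp ψ.symm.toMulHom) (hπ.comp ψ.symm.surjective) ι hι
      exact ⟨Q', _, Finite.of_surjective π' h1, fam_hb (Pr := fun _ => SZ V) F π' h1,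
        (Nat.card_le_card_of_surjective π' h1).trans F.cP, ι', h2⟩
  have dHSP : Decid (H (S (P (ZV V)))) := by
    refine d0.pb.sb.hb.fin (p_βv ω) fun M => ⟨?_, ?_⟩
    · rintro ⟨U, _, _, ⟨T, _, _, ⟨F, ⟨ψ⟩⟩, -, ι, hι⟩, -, π, hπ⟩
      have : Nonempty U := hπ.nonempty
      have : Nonempty T := ⟨ι (Classical.arbitrary _)⟩
      exact ⟨⟨U⟩, ss _ _ ⟨⟨T⟩, ps _ _ (p_fam F (fun T => (s_iff T).2) ⟨T⟩ ψ), ι, hι⟩, π, hπ⟩
    · rintro ⟨U, ⟨T, ⟨k, W, hW, ⟨ψ⟩⟩, ι, hι⟩, π, hπ⟩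
      obtain ⟨F, U', π', h'⟩ := hspV hV hω (fun i => (s_iff _).1 (le_app_cons Op.s [] _ _ (hW i)))
        (ψ.toMulHom.comp ι) (ψ.injective.comp hι) π hπ
      exact ⟨U', _, inferInstance, ⟨_, _, inferInstance, ⟨F, ⟨MulEquiv.refl _⟩⟩, F.cP,
        MulMemClass.subtype _, Subtype.val_injective⟩,
        (Nat.card_le_card_of_injective _ Subtype.val_injective).trans F.cP, π', h'⟩
  have h1 : ∀ l ∈ NF, Decid (app l (ZV V)) := by
    simp only [NF, List.forall_mem_cons, app]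
    exact ⟨dI, dH, dS, dI.p, dSH, dHS, dH.p, dHP, dS.sp, dS.p, dSH.p, dHS.p, dSH.sp, dSHS.sp,
      (shp_eq hV).symm ▸ dS.sp, dSHPS, dHPS, dHSP, by simp⟩
  intro K
  obtain ⟨l, hl, h2 | h2⟩ := exists_nf K (ZV V)
  · rw [h2]; exact h1 l hl
  · rw [h2]; exact (h1 l hl).tr

end Pool.Agent.H.MP_152bd8_lc
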